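import Pool.Agent.U160.GC.Stm

/-!
# Project GC (helper160), package INF (helper480): influences
-/

set_option autoImplicit false

namespace Pool.Agent.U160.GC

open Finset

theorem inf_clip (u : ℝ) : 0 ≤ clip u ∧ clip u ≤ 1 := by
  unfold clip
  exact ⟨le_max_left _ _, max_le zero_le_one (min_le_left _ _)⟩

theorem inf_xx (θ : ℕ → ℝ) (n : ℕ) : (n : ℝ) - 1 / 2 ≤ xx θ n ∧ xx θ n ≤ (n : ℝ) + 1 / 2 := by
  have := inf_clip (θ n)
  unfold xx
  constructor <;> linarith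

/-- the number of integers in an interval -/
theorem inf_card {N : Finset ℕ} {α β : ℝ} (hαβ : α ≤ β + 1) (h : ∀ n ∈ N, α ≤ (n : ℝ) ∧ (n : ℝ) ≤ β) :
    (N.card : ℝ) ≤ β - α + 1 := by
  rcases N.eq_empty_or_nonempty with rfl | hN
  · rw [card_empty, Nat.cast_zero]
    linarith
  · have h1 := h _ (N.min'_mem hN)
    have h2 := h _ (N.max'_mem hN)
    have h3 : N ⊆ Icc (N.min' hN) (N.max' hN) := fun n hn =>
      mem_Icc.2 ⟨N.min'_le n hn, N.le_max' n hn⟩
    have h4 := card_le_card h3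
    rw [Nat.card_Icc] at h4
    have h5 : N.min' hN ≤ N.max' hN := N.min'_le _ (N.max'_mem hN)
    have h6 : N.card + N.min' hN ≤ N.max' hN + 1 := by omega
    have h7 : (N.card : ℝ) + (N.min' hN : ℝ) ≤ (N.max' hN : ℝ) + 1 := by exact_mod_cast h6
    linarith

/-- one term -/
theorem inf_term {R : ℝ} {j n : ℕ} (hj : 1 ≤ j) (hn : 1 ≤ n) {a b q : ℝ}
    (ha : (j : ℝ) - 1 / 2 ≤ a ∧ a ≤ (j : ℝ) + 1 / 2) (hb : (j : ℝ) - 1 / 2 ≤ b ∧ b ≤ (j : ℝ) + 1 / 2)
    (hq : (n : ℝ) - 1 / 2 ≤ q ∧ q ≤ (n : ℝ) + 1 / 2) :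
    |(if a ^ 2 + q ^ 2 ≤ R ^ 2 then (1 : ℝ) else 0) - (if b ^ 2 + q ^ 2 ≤ R ^ 2 then (1 : ℝ) else 0)| ≤
      if Real.sqrt (R ^ 2 - ((j : ℝ) + 1 / 2) ^ 2) - 1 / 2 ≤ n ∧
        (n : ℝ) ≤ Real.sqrt (R ^ 2 - ((j : ℝ) - 1 / 2) ^ 2) + 1 / 2 then 1 else 0 := by
  have hj1 : (1 : ℝ) ≤ j := by exact_mod_cast hj
  have hn1 : (1 : ℝ) ≤ n := by exact_mod_cast hn
  have key : ∀ s t : ℝ, (j : ℝ) - 1 / 2 ≤ s → 0 ≤ t → t ≤ (j : ℝ) + 1 / 2 →
      s ^ 2 + q ^ 2 ≤ R ^ 2 → ¬ t ^ 2 + q ^ 2 ≤ R ^ 2 →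
      Real.sqrt (R ^ 2 - ((j : ℝ) + 1 / 2) ^ 2) - 1 / 2 ≤ n ∧
        (n : ℝ) ≤ Real.sqrt (R ^ 2 - ((j : ℝ) - 1 / 2) ^ 2) + 1 / 2 := by
    intro s t hs ht0 ht h1 h2
    push Not at h2
    have hq0 : 0 < q := by linarith [hq.1]
    constructor
    · have h3 : Real.sqrt (R ^ 2 - ((j : ℝ) + 1 / 2) ^ 2) < q := by
        rw [Real.sqrt_lt' hq0]
        nlinarith
      linarith [hq.2]
    · have h3 : q ≤ Real.sqrt (R ^ 2 - ((j : ℝ) - 1 / 2) ^ 2) := by
        apply Real.le_sqrt_of_sq_le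
        nlinarith
      linarith [hq.1]
  by_cases h1 : a ^ 2 + q ^ 2 ≤ R ^ 2 <;> by_cases h2 : b ^ 2 + q ^ 2 ≤ R ^ 2
  · rw [if_pos h1, if_pos h2, sub_self, abs_zero]
    split_ifs <;> norm_num
  · rw [if_pos h1, if_neg h2, if_pos (key a b ha.1 (by linarith [hb.1]) hb.2 h1 h2)]
    norm_num
  · rw [if_neg h1, if_pos h2, if_pos (key b a hb.1 (by linarith [ha.1]) ha.2 h2 h1)]
    norm_num
  · rw [if_neg h1, if_neg h2, sub_self, abs_zero]
    split_ifs <;> norm_num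

/-- the difference of the ends of the rows -/
noncomputable def del (R : ℝ) (j : ℕ) : ℝ :=
  Real.sqrt (R ^ 2 - ((j : ℝ) - 1 / 2) ^ 2) - Real.sqrt (R ^ 2 - ((j : ℝ) + 1 / 2) ^ 2)

theorem del_nonneg (R : ℝ) (j : ℕ) : 0 ≤ del R j := by
  unfold del
  have hj : (0 : ℝ) ≤ j := Nat.cast_nonneg j
  have := Real.sqrt_le_sqrt (show R ^ 2 - ((j : ℝ) + 1 / 2) ^ 2 ≤ R ^ 2 - ((j : ℝ) - 1 / 2) ^ 2 by
    nlinarith)
  linarith

theorem del_sq {R : ℝ} {j : ℕ} (hR : 1 ≤ R) (hj : 1 ≤ j) (hjR : (j : ℝ) - 1 / 2 ≤ R) :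
    del R j ^ 2 ≤ 8 * R * (1 / (R - j + 3 / 2)) := by
  have hj1 : (1 : ℝ) ≤ j := by exact_mod_cast hj
  rw [mul_one_div, le_div_iff₀ (by linarith)]
  by_cases h : (j : ℝ) + 1 / 2 ≤ R
  · have hs : 0 ≤ R ^ 2 - ((j : ℝ) - 1 / 2) ^ 2 := by nlinarith
    have hs' : 0 ≤ R ^ 2 - ((j : ℝ) + 1 / 2) ^ 2 := by nlinarith
    have e1 := Real.sq_sqrt hs
    have e2 := Real.sq_sqrt hs'
    have hd := del_nonneg R j
    have p1 := Real.sqrt_nonneg (R ^ 2 - ((j : ℝ) - 1 / 2) ^ 2)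
    have p2 := Real.sqrt_nonneg (R ^ 2 - ((j : ℝ) + 1 / 2) ^ 2)
    have hdef : del R j = Real.sqrt (R ^ 2 - ((j : ℝ) - 1 / 2) ^ 2) -
      Real.sqrt (R ^ 2 - ((j : ℝ) + 1 / 2) ^ 2) := rfl
    set s := Real.sqrt (R ^ 2 - ((j : ℝ) - 1 / 2) ^ 2)
    set s' := Real.sqrt (R ^ 2 - ((j : ℝ) + 1 / 2) ^ 2)
    have h3 : del R j * (s + s') = 2 * j := by
      rw [hdef]
      linear_combination e1 - e2
    have h4 : del R j * s ≤ 2 * j := by
      rw [← h3]
      apply mul_le_mul_of_nonneg_left _ hd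
      linarith
    have h5 : del R j ^ 2 * s ^ 2 ≤ (2 * j) ^ 2 := by
      rw [← mul_pow]
      exact pow_le_pow_left₀ (mul_nonneg hd p1) h4 2
    rw [e1] at h5
    have h6 : R ^ 2 - ((j : ℝ) - 1 / 2) ^ 2 = (R - j + 1 / 2) * (R + j - 1 / 2) := by ring
    rw [h6] at h5
    have h7 : del R j ^ 2 * ((R - j + 1 / 2) * R) ≤ (2 * j) ^ 2 := by
      refine le_trans ?_ h5
      apply mul_le_mul_of_nonneg_left _ (sq_nonneg _)
      apply mul_le_mul_of_nonneg_left _ (by linarith)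
      linarith
    have h8 : (2 * (j : ℝ)) ^ 2 ≤ 4 * R * R := by nlinarith
    have h9 : del R j ^ 2 * (R - j + 1 / 2) ≤ 4 * R := by
      have hR0 : 0 < R := by linarith
      have h10 : (del R j ^ 2 * (R - j + 1 / 2)) * R ≤ (4 * R) * R := by
        calc (del R j ^ 2 * (R - j + 1 / 2)) * R = del R j ^ 2 * ((R - j + 1 / 2) * R) := by ring
          _ ≤ _ := h7.trans h8
      exact le_of_mul_le_mul_right h10 hR0
    have h11 : R - j + 3 / 2 ≤ 2 * (R - j + 1 / 2) := by linarith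
    calc del R j ^ 2 * (R - j + 3 / 2) ≤ del R j ^ 2 * (2 * (R - j + 1 / 2)) :=
          mul_le_mul_of_nonneg_left h11 (sq_nonneg _)
      _ = 2 * (del R j ^ 2 * (R - j + 1 / 2)) := by ring
      _ ≤ 2 * (4 * R) := by linarith
      _ = 8 * R := by ring
  · push Not at h
    have hs : 0 ≤ R ^ 2 - ((j : ℝ) - 1 / 2) ^ 2 := by nlinarith
    have hs' : R ^ 2 - ((j : ℝ) + 1 / 2) ^ 2 ≤ 0 := by nlinarith
    have e1 := Real.sq_sqrt hs
    have h3 : del R j ^ 2 = (R - j + 1 / 2) * (R + j - 1 / 2) := by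
      unfold del
      rw [Real.sqrt_eq_zero'.2 hs', sub_zero, e1]
      ring
    rw [h3]
    have r0 : 0 ≤ R - j + 1 / 2 := by linarith
    have r1 : R - j + 1 / 2 ≤ 1 := by linarith
    have h4 : (R - j + 1 / 2) * (R + j - 1 / 2) ≤ 1 * (2 * R) :=
      mul_le_mul r1 (by linarith) (by linarith) zero_le_one
    have h5 : R - j + 3 / 2 ≤ 2 := by linarith
    have h6 : (R - j + 1 / 2) * (R + j - 1 / 2) * (R - j + 3 / 2) ≤ 1 * (2 * R) * 2 :=
      mul_le_mul h4 h5 (by linarith) (by linarith)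
    linarith

/-- the harmonic sum -/
theorem inf_harm {R : ℝ} (hR : 1 ≤ R) :
    ∑ j ∈ Icc 1 ⌊R + 1 / 2⌋₊, 1 / (R - j + 3 / 2) ≤ 2 + Real.log R := by
  set J := ⌊R + 1 / 2⌋₊ with hJ
  have hJR : (J : ℝ) ≤ R + 1 / 2 := Nat.floor_le (by linarith)
  have hJ1 : 1 ≤ J := Nat.le_floor (by push_cast; linarith)
  have h1 : ∑ j ∈ Icc 1 J, 1 / (R - j + 3 / 2) ≤ ∑ j ∈ Icc 1 J, 1 / ((J : ℝ) - j + 1) := by
    refine sum_le_sum fun j hj => ?_
    rw [mem_Icc] at hj
    have hjJ : (j : ℝ) ≤ J := by exact_mod_cast hj.2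
    exact one_div_le_one_div_of_le (by linarith) (by linarith)
  have h2 : ∑ j ∈ Icc 1 J, 1 / ((J : ℝ) - j + 1) = ∑ i ∈ range J, ((i : ℝ) + 1)⁻¹ := by
    refine sum_nbij' (fun j => J - j) (fun i => J - i) ?_ ?_ ?_ ?_ ?_
    · intro j hj
      rw [mem_Icc] at hj
      rw [mem_range]
      omega
    · intro i hi
      rw [mem_range] at hi
      rw [mem_Icc]
      omega
    · intro j hj
      rw [mem_Icc] at hj
      show J - (J - j) = j
      omega
    · intro i hi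
      rw [mem_range] at hi
      show J - (J - i) = i
      omega
    · intro j hj
      rw [mem_Icc] at hj
      show 1 / ((J : ℝ) - j + 1) = (((J - j : ℕ) : ℝ) + 1)⁻¹
      rw [Nat.cast_sub hj.2, one_div]
  have h3 : ∑ i ∈ range J, ((i : ℝ) + 1)⁻¹ ≤ 1 + Real.log J := by
    have := harmonic_le_one_add_log J
    unfold harmonic at this
    push_cast at this
    exact this
  have h4 : Real.log J ≤ 1 + Real.log R := by
    have h5 : Real.log J ≤ Real.log (2 * R) :=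
      Real.log_le_log (by exact_mod_cast hJ1) (by linarith)
    rw [Real.log_mul two_ne_zero (by linarith)] at h5
    have h6 : Real.log 2 ≤ 1 := by
      have := Real.log_two_lt_d9
      linarith
    linarith
  linarith

open Classical in
/-- the sum over the changed terms -/
theorem inf_sum {R : ℝ} (M : ℕ) {j : ℕ} (hj : 1 ≤ j) {x y : ℕ → ℝ} (hxy : ∀ n, n ≠ j → x n = y n) :
    |Q x M R - Q y M R| ≤ 2 * del R j + 5 := by
  have hq : ∀ n, n ≠ j → xx x n = xx y n := by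
    intro n hn
    unfold xx
    rw [hxy n hn]
  set P : ℕ → Prop := fun n => Real.sqrt (R ^ 2 - ((j : ℝ) + 1 / 2) ^ 2) - 1 / 2 ≤ n ∧
        (n : ℝ) ≤ Real.sqrt (R ^ 2 - ((j : ℝ) - 1 / 2) ^ 2) + 1 / 2 with hP
  set w : ℕ → ℝ := fun n => if P n then 1 else 0 with hw
  have hw0 : ∀ n, 0 ≤ w n := fun n => by
    rw [hw]
    show 0 ≤ (if P n then (1 : ℝ) else 0)
    split_ifs <;> norm_num
  have hterm : ∀ m ∈ Icc 1 M, ∀ n ∈ Icc 1 M,
      |(if xx x m ^ 2 + xx x n ^ 2 ≤ R ^ 2 then (1 : ℝ) else 0) -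
        (if xx y m ^ 2 + xx y n ^ 2 ≤ R ^ 2 then (1 : ℝ) else 0)| ≤
      (if m = j then w n else 0) + (if n = j then w m else 0) +
        (if m = j then (if n = j then 1 else 0) else 0) := by
    intro m hm n hn
    rw [mem_Icc] at hm hn
    by_cases h1 : m = j
    · by_cases h2 : n = j
      · rw [if_pos h1, if_pos h2, if_pos h1, if_pos h2]
        have h3 : ∀ p p' : Prop, |(if p then (1 : ℝ) else 0) - (if p' then (1 : ℝ) else 0)| ≤ 1 := by
          intro p p'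
          split_ifs <;> norm_num
        have := h3 (xx x m ^ 2 + xx x n ^ 2 ≤ R ^ 2) (xx y m ^ 2 + xx y n ^ 2 ≤ R ^ 2)
        have a1 := hw0 n
        have a2 := hw0 m
        linarith
      · rw [if_pos h1, if_neg h2, if_pos h1, if_neg h2, add_zero, add_zero, hq n h2, h1]
        exact inf_term hj hn.1 (inf_xx x j) (inf_xx y j) (inf_xx y n)
    · by_cases h2 : n = j
      · rw [if_neg h1, if_pos h2, if_neg h1, zero_add, add_zero, hq m h1, h2,
          add_comm (xx y m ^ 2), add_comm (xx y m ^ 2)]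
        exact inf_term hj hm.1 (inf_xx x j) (inf_xx y j) (inf_xx y m)
      · rw [hq m h1, hq n h2, sub_self, abs_zero, if_neg h1, if_neg h2, if_neg h1]
        norm_num
  have hκ : ∑ n ∈ Icc 1 M, w n ≤ del R j + 2 := by
    rw [hw]
    rw [sum_boole]
    have h1 : (((Icc 1 M).filter P).card : ℝ) ≤
        (Real.sqrt (R ^ 2 - ((j : ℝ) - 1 / 2) ^ 2) + 1 / 2) -
          (Real.sqrt (R ^ 2 - ((j : ℝ) + 1 / 2) ^ 2) - 1 / 2) + 1 := by
      refine inf_card ?_ fun n hn => (mem_filter.1 hn).2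
      have := del_nonneg R j
      unfold del at this
      linarith
    unfold del
    linarith
  have hκ0 : 0 ≤ ∑ n ∈ Icc 1 M, w n := sum_nonneg fun n _ => hw0 n
  have e0 : Q x M R - Q y M R = ∑ m ∈ Icc 1 M, ∑ n ∈ Icc 1 M,
      ((if xx x m ^ 2 + xx x n ^ 2 ≤ R ^ 2 then (1 : ℝ) else 0) -
        (if xx y m ^ 2 + xx y n ^ 2 ≤ R ^ 2 then (1 : ℝ) else 0)) := by
    unfold Q
    simp only [sum_sub_distrib]
  rw [e0]
  refine (abs_sum_le_sum_abs _ _).trans ?_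
  have h1 : ∑ m ∈ Icc 1 M, |∑ n ∈ Icc 1 M,
      ((if xx x m ^ 2 + xx x n ^ 2 ≤ R ^ 2 then (1 : ℝ) else 0) -
        (if xx y m ^ 2 + xx y n ^ 2 ≤ R ^ 2 then (1 : ℝ) else 0))| ≤
      ∑ m ∈ Icc 1 M, ∑ n ∈ Icc 1 M, ((if m = j then w n else 0) + (if n = j then w m else 0) +
        (if m = j then (if n = j then 1 else 0) else 0)) := by
    refine sum_le_sum fun m hm => (abs_sum_le_sum_abs _ _).trans ?_
    exact sum_le_sum fun n hn => hterm m hm n hn
  refine h1.trans ?_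
  simp only [sum_add_distrib]
  have t1 : ∑ m ∈ Icc 1 M, ∑ n ∈ Icc 1 M, (if m = j then w n else 0) ≤ ∑ n ∈ Icc 1 M, w n := by
    have : ∀ m ∈ Icc 1 M, ∑ n ∈ Icc 1 M, (if m = j then w n else 0) =
        if m = j then ∑ n ∈ Icc 1 M, w n else 0 := by
      intro m _
      split_ifs
      · rfl
      · exact sum_const_zero
    rw [sum_congr rfl this, sum_ite_eq']
    split_ifs
    · exact le_rfl
    · exact hκ0
  have t2 : ∑ m ∈ Icc 1 M, ∑ n ∈ Icc 1 M, (if n = j then w m else 0) ≤ ∑ n ∈ Icc 1 M, w n := by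
    refine sum_le_sum fun m _ => ?_
    rw [sum_ite_eq']
    split_ifs
    · exact le_rfl
    · exact hw0 m
  have t3 : ∑ m ∈ Icc 1 M, ∑ n ∈ Icc 1 M, (if m = j then (if n = j then (1 : ℝ) else 0) else 0) ≤ 1 := by
    have : ∀ m ∈ Icc 1 M, ∑ n ∈ Icc 1 M, (if m = j then (if n = j then (1 : ℝ) else 0) else 0) =
        if m = j then ∑ n ∈ Icc 1 M, (if n = j then (1 : ℝ) else 0) else 0 := by
      intro m _
      split_ifs
      · rfl
      · exact sum_const_zero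
    rw [sum_congr rfl this, sum_ite_eq', sum_ite_eq']
    split_ifs <;> norm_num
  linarith

theorem t_INF : S_INF := by
  classical
  refine ⟨203, by norm_num, fun R M hR => ?_⟩
  set J := ⌊R + 1 / 2⌋₊ with hJ
  have hJR : (J : ℝ) ≤ R + 1 / 2 := Nat.floor_le (by linarith)
  refine ⟨fun j => if j ∈ Icc 1 J then 2 * del R j + 5 else 0, ?_, ?_, ?_⟩
  · intro j
    show 0 ≤ (if j ∈ Icc 1 J then 2 * del R j + 5 else 0)
    split_ifs
    · have := del_nonneg R j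
      linarith
    · exact le_rfl
  · show ∑ j ∈ Icc 1 M, (if j ∈ Icc 1 J then 2 * del R j + 5 else 0) ^ 2 ≤ _
    have h1 : ∑ j ∈ Icc 1 M, (if j ∈ Icc 1 J then 2 * del R j + 5 else 0) ^ 2 ≤
        ∑ j ∈ Icc 1 J, (2 * del R j + 5) ^ 2 := by
      have e : ∀ j ∈ Icc 1 M, (if j ∈ Icc 1 J then 2 * del R j + 5 else 0) ^ 2 =
          if j ∈ Icc 1 J then (2 * del R j + 5) ^ 2 else 0 := by
        intro j _
        split_ifs <;> norm_num
      rw [sum_congr rfl e, ← sum_filter]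
      refine sum_le_sum_of_subset_of_nonneg ?_ fun j _ _ => sq_nonneg _
      intro j hj
      exact (mem_filter.1 hj).2
    have h2 : ∑ j ∈ Icc 1 J, (2 * del R j + 5) ^ 2 ≤
        ∑ j ∈ Icc 1 J, (64 * R * (1 / (R - j + 3 / 2)) + 50) := by
      refine sum_le_sum fun j hj => ?_
      rw [mem_Icc] at hj
      have hjJ : (j : ℝ) ≤ J := by exact_mod_cast hj.2
      have h3 := del_sq hR hj.1 (by linarith)
      have h4 : (2 * del R j + 5) ^ 2 ≤ 8 * del R j ^ 2 + 50 := by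
        nlinarith [sq_nonneg (2 * del R j - 5)]
      calc (2 * del R j + 5) ^ 2 ≤ 8 * del R j ^ 2 + 50 := h4
        _ ≤ 8 * (8 * R * (1 / (R - j + 3 / 2))) + 50 := by linarith
        _ = _ := by ring
    have h3 : ∑ j ∈ Icc 1 J, (64 * R * (1 / (R - j + 3 / 2)) + 50) =
        64 * R * ∑ j ∈ Icc 1 J, 1 / (R - j + 3 / 2) + 50 * J := by
      rw [sum_add_distrib, ← mul_sum, sum_const, Nat.card_Icc, nsmul_eq_mul]
      push_cast
      ring
    have h4 := inf_harm hR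
    rw [← hJ] at h4
    have h5 : 64 * R * ∑ j ∈ Icc 1 J, 1 / (R - j + 3 / 2) ≤ 64 * R * (2 + Real.log R) :=
      mul_le_mul_of_nonneg_left h4 (by linarith)
    have hlog : 0 ≤ Real.log R := Real.log_nonneg hR
    have h6 : 0 ≤ R * Real.log R := by positivity
    calc _ ≤ 64 * R * (2 + Real.log R) + 50 * J := by linarith
      _ ≤ 203 * R * (1 + Real.log R) := by nlinarith
  · intro j x y hxy
    show |Q x M R - Q y M R| ≤ (if j ∈ Icc 1 J then 2 * del R j + 5 else 0)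
    split_ifs with h
    · exact inf_sum M (mem_Icc.1 h).1 hxy
    · have hq : ∀ n, n ≠ j → xx x n = xx y n := by
        intro n hn
        unfold xx
        rw [hxy n hn]
      have hbig : ∀ m, 1 ≤ m → m = j → ∀ θ : ℕ → ℝ, R ^ 2 < xx θ m ^ 2 := by
        intro m hm hmj θ
        have h1 : J < m := by
          by_contra hc
          push Not at hc
          exact h (mem_Icc.2 ⟨hmj ▸ hm, hmj ▸ hc⟩)
        have h2 : R + 1 / 2 < m := (Nat.floor_lt (by linarith)).1 h1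
        have h3 := (inf_xx θ m).1
        nlinarith
      have hQ : Q x M R = Q y M R := by
        unfold Q
        refine sum_congr rfl fun m hm => sum_congr rfl fun n hn => ?_
        rw [mem_Icc] at hm hn
        by_cases h1 : m = j
        · have a1 := hbig m hm.1 h1 x
          have a2 := hbig m hm.1 h1 y
          rw [if_neg (by nlinarith [sq_nonneg (xx x n)]), if_neg (by nlinarith [sq_nonneg (xx y n)])]
        · by_cases h2 : n = j
          · have a1 := hbig n hn.1 h2 x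
            have a2 := hbig n hn.1 h2 y
            rw [if_neg (by nlinarith [sq_nonneg (xx x m)]), if_neg (by nlinarith [sq_nonneg (xx y m)])]
          · rw [hq m h1, hq n h2]
      rw [hQ, sub_self, abs_zero]

end Pool.Agent.U160.GC
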