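import Pool.Agent.U160.GC.Stm

set_option autoImplicit false

/-! Project GC, package MEAN (helper981): the mean number of points in a quadrant. -/

namespace Pool.Agent.U160.GC

open MeasureTheory ProbabilityTheory Finset

theorem clip_nonneg (u : ℝ) : 0 ≤ clip u := le_max_left _ _

theorem clip_le_one (u : ℝ) : clip u ≤ 1 := max_le zero_le_one (min_le_left _ _)

theorem clip_of_mem {u : ℝ} (h : u ∈ Set.Icc (0 : ℝ) 1) : clip u = u := by
  unfold clip; rw [min_eq_right h.2, max_eq_right h.1]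

theorem measurable_clip : Measurable clip := by unfold clip; fun_prop

/-- the law of two different coordinates -/
theorem map_two (m n : ℕ) (h : m ≠ n) :
    (prodLaw unif).map (fun y : ℕ → ℝ => (y m, y n)) = unif.prod unif := by
  have hinj : Function.Injective ![m, n] := by
    intro i j hij
    fin_cases i <;> fin_cases j <;> simp_all
  have h1 : (prodLaw unif).map (fun (y : ℕ → ℝ) (l : Fin 2) => y (![m, n] l)) =
      Measure.pi (fun _ : Fin 2 => unif) := by
    unfold prodLaw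
    rw [Measure.map_infinitePi_infinitePi_of_inj hinj, Measure.infinitePi_eq_pi]
  have h2 := (measurePreserving_piFinTwo (fun _ : Fin 2 => unif)).map_eq
  rw [← h2, ← h1, Measure.map_map (by fun_prop) (by fun_prop)]
  rfl

/-- the indicator function -/
noncomputable def ff (R : ℝ) (m n : ℕ) (s t : ℝ) : ℝ :=
  if ((m : ℝ) + clip s - 1 / 2) ^ 2 + ((n : ℝ) + clip t - 1 / 2) ^ 2 ≤ R ^ 2 then 1 else 0

theorem ff_nonneg (R : ℝ) (m n : ℕ) (s t : ℝ) : 0 ≤ ff R m n s t := by
  unfold ff; split_ifs <;> norm_num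

theorem ff_le_one (R : ℝ) (m n : ℕ) (s t : ℝ) : ff R m n s t ≤ 1 := by
  unfold ff; split_ifs <;> norm_num

theorem measurable_ff (R : ℝ) (m n : ℕ) : Measurable fun p : ℝ × ℝ => ff R m n p.1 p.2 := by
  unfold ff
  refine Measurable.ite (measurableSet_le ?_ measurable_const) measurable_const measurable_const
  have h1 : Measurable fun p : ℝ × ℝ => clip p.1 := measurable_clip.comp measurable_fst
  have h2 : Measurable fun p : ℝ × ℝ => clip p.2 := measurable_clip.comp measurable_snd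
  exact (((measurable_const.add h1).sub measurable_const).pow_const 2).add
    (((measurable_const.add h2).sub measurable_const).pow_const 2)

theorem integrable_ff (R : ℝ) (m n : ℕ) :
    Integrable (fun p : ℝ × ℝ => ff R m n p.1 p.2) (unif.prod unif) := by
  refine Integrable.of_bound (measurable_ff R m n).aestronglyMeasurable 1 (ae_of_all _ fun p => ?_)
  rw [Real.norm_eq_abs, abs_of_nonneg (ff_nonneg _ _ _ _ _)]
  exact ff_le_one _ _ _ _ _

theorem Q_eq (θ : ℕ → ℝ) (M : ℕ) (R : ℝ) :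
    Q θ M R = ∑ m ∈ Icc 1 M, ∑ n ∈ Icc 1 M, ff R m n (θ m) (θ n) := rfl

theorem measurable_ff' (R : ℝ) (m n : ℕ) : Measurable fun θ : ℕ → ℝ => ff R m n (θ m) (θ n) := by
  have h : Measurable fun θ : ℕ → ℝ => (θ m, θ n) :=
    (measurable_pi_apply m).prodMk (measurable_pi_apply n)
  have h2 := Measurable.comp (g := fun p : ℝ × ℝ => ff R m n p.1 p.2)
    (f := fun θ : ℕ → ℝ => (θ m, θ n)) (measurable_ff R m n) h
  rwa [Function.comp_def] at h2

theorem prodLaw_prob : IsProbabilityMeasure (prodLaw unif) := by unfold prodLaw; infer_instance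

theorem integrable_ff' (R : ℝ) (m n : ℕ) :
    Integrable (fun θ : ℕ → ℝ => ff R m n (θ m) (θ n)) (prodLaw unif) := by
  have := prodLaw_prob
  refine Integrable.of_bound (measurable_ff' R m n).aestronglyMeasurable 1
    (ae_of_all _ fun p => ?_)
  rw [Real.norm_eq_abs, abs_of_nonneg (ff_nonneg _ _ _ _ _)]
  exact ff_le_one _ _ _ _ _

/-- off the diagonal -/
theorem off_diag (R : ℝ) (m n : ℕ) (h : m ≠ n) :
    ∫ θ, ff R m n (θ m) (θ n) ∂(prodLaw unif) = ∫ s, ∫ t, ff R m n s t ∂unif ∂unif := by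
  rw [← integral_prod (fun p : ℝ × ℝ => ff R m n p.1 p.2) (integrable_ff R m n), ← map_two m n h,
    integral_map (by fun_prop) (measurable_ff R m n).aestronglyMeasurable]

/-- the inner integral -/
theorem inner_int (Y : ℝ) (n : ℕ) :
    ∫ t, (if (n : ℝ) + clip t - 1 / 2 ≤ Y then (1 : ℝ) else 0) ∂unif = clip (Y + 1 / 2 - n) := by
  set w := Y + 1 / 2 - n with hw
  have hms : MeasurableSet {t : ℝ | clip t ≤ w} := measurableSet_le measurable_clip measurable_const
  have h1 : (fun t : ℝ => if (n : ℝ) + clip t - 1 / 2 ≤ Y then (1 : ℝ) else 0) =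
      {t : ℝ | clip t ≤ w}.indicator 1 := by
    funext t
    by_cases h : clip t ≤ w
    · rw [Set.indicator_of_mem (by exact h), if_pos (by rw [hw] at h; linarith)]; rfl
    · rw [Set.indicator_of_notMem (by exact h), if_neg (by rw [hw] at h; intro h2; exact h (by linarith))]
  rw [h1, integral_indicator_one hms, measureReal_def, unif, Measure.restrict_apply hms]
  have h2 : {t : ℝ | clip t ≤ w} ∩ Set.Icc 0 1 = Set.Icc 0 (min 1 w) := by
    ext t
    simp only [Set.mem_inter_iff, Set.mem_ofPred_eq, Set.mem_Icc, le_min_iff]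
    constructor
    · rintro ⟨h3, h4, h5⟩
      rw [clip_of_mem ⟨h4, h5⟩] at h3
      exact ⟨h4, h5, h3⟩
    · rintro ⟨h4, h5, h3⟩
      rw [clip_of_mem ⟨h4, h5⟩]
      exact ⟨h3, h4, h5⟩
  rw [h2, Real.volume_Icc, sub_zero]
  unfold clip
  rw [ENNReal.toReal_ofReal']
  exact max_comm _ _

theorem sum_clip (Y : ℝ) (M : ℕ) :
    ∑ n ∈ Icc 1 M, clip (Y + 1 / 2 - n) = min (max (Y - 1 / 2) 0) M := by
  induction M with
  | zero => simp
  | succ M ih =>
    rw [Finset.sum_Icc_succ_top (by omega), ih]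
    unfold clip
    push_cast
    have hM : (0 : ℝ) ≤ M := Nat.cast_nonneg M
    have h1 : Y + 1 / 2 - ((M : ℝ) + 1) = (Y - 1 / 2) - M := by ring
    rw [h1]
    generalize Y - 1 / 2 = c
    generalize (M : ℝ) = x at hM
    rcases le_total c 0 with h | h
    · have h2 : min 1 (c - x) ≤ 0 := (min_le_right _ _).trans (by linarith)
      rw [max_eq_right h, max_eq_left h2, min_eq_left hM, min_eq_left (by linarith), add_zero]
    · rw [max_eq_left h]
      rcases le_total c x with h2 | h2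
      · have h3 : min 1 (c - x) ≤ 0 := (min_le_right _ _).trans (by linarith)
        have h4 : c ≤ x + 1 := by linarith
        rw [min_eq_left h2, max_eq_left h3, min_eq_left h4, add_zero]
      · rw [min_eq_right h2]
        rcases le_total c (x + 1) with h3 | h3
        · have h4 : c - x ≤ 1 := by linarith
          have h5 : 0 ≤ c - x := by linarith
          rw [min_eq_left h3, min_eq_right h4, max_eq_right h5]
          ring
        · have h4 : 1 ≤ c - x := by linarith
          rw [min_eq_right h3, min_eq_left h4, max_eq_right zero_le_one]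

/-- the profile -/
noncomputable def hh (R u : ℝ) : ℝ := max (Real.sqrt (R ^ 2 - u ^ 2) - 1 / 2) 0

theorem continuous_hh (R : ℝ) : Continuous (hh R) := by unfold hh; fun_prop

theorem sqrt_le_R {R : ℝ} (hR : 0 ≤ R) (u : ℝ) : Real.sqrt (R ^ 2 - u ^ 2) ≤ R := by
  rw [Real.sqrt_le_left hR]
  nlinarith [sq_nonneg u]

theorem sum_inner (R : ℝ) (M m : ℕ) (s : ℝ) (hR : 1 ≤ R) (hM : R + 1 ≤ M) :
    ∑ n ∈ Icc 1 M, ∫ t, ff R m n s t ∂unif = hh R ((m : ℝ) + clip s - 1 / 2) := by
  set u := (m : ℝ) + clip s - 1 / 2 with hu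
  set Y := Real.sqrt (R ^ 2 - u ^ 2) with hY
  have h1 : ∀ n ∈ Icc 1 M, ∫ t, ff R m n s t ∂unif = clip (Y + 1 / 2 - n) := by
    intro n hn
    rw [← inner_int Y n]
    congr 1
    funext t
    unfold ff
    rw [← hu]
    have hn1 : (1 : ℝ) ≤ n := by exact_mod_cast (mem_Icc.1 hn).1
    have hx : 0 < (n : ℝ) + clip t - 1 / 2 := by linarith [clip_nonneg t]
    have h2 : (u ^ 2 + ((n : ℝ) + clip t - 1 / 2) ^ 2 ≤ R ^ 2) ↔
        ((n : ℝ) + clip t - 1 / 2 ≤ Y) := by
      rw [hY, Real.le_sqrt' hx]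
      constructor <;> intro h <;> linarith
    by_cases h : (n : ℝ) + clip t - 1 / 2 ≤ Y
    · rw [if_pos h, if_pos (h2.2 h)]
    · rw [if_neg h, if_neg fun h3 => h (h2.1 h3)]
  rw [sum_congr rfl h1, sum_clip]
  unfold hh
  rw [← hY]
  apply min_eq_left
  have h3 : Y ≤ R := sqrt_le_R (by linarith) u
  exact max_le (by linarith) (by linarith)

theorem int_unif (g : ℝ → ℝ) (m : ℕ) :
    ∫ s, g ((m : ℝ) + clip s - 1 / 2) ∂unif = ∫ u in ((m : ℝ) - 1 / 2)..((m : ℝ) + 1 / 2), g u := by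
  have h1 : ∫ s, g ((m : ℝ) + clip s - 1 / 2) ∂unif =
      ∫ s in Set.Icc (0 : ℝ) 1, g (((m : ℝ) - 1 / 2) + s) := by
    unfold unif
    refine setIntegral_congr_fun measurableSet_Icc fun s hs => ?_
    rw [clip_of_mem hs]
    congr 1
    ring
  rw [h1, integral_Icc_eq_integral_Ioc, ← intervalIntegral.integral_of_le zero_le_one,
    intervalIntegral.integral_comp_add_left (fun x => g x)]
  congr 1 <;> ring

theorem sum_int (R : ℝ) (M : ℕ) :
    ∑ m ∈ Icc 1 M, ∫ u in ((m : ℝ) - 1 / 2)..((m : ℝ) + 1 / 2), hh R u =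
      ∫ u in (1 / 2 : ℝ)..((M : ℝ) + 1 / 2), hh R u := by
  induction M with
  | zero => simp
  | succ M ih =>
    rw [Finset.sum_Icc_succ_top (by omega), ih]
    have h1 : ((M + 1 : ℕ) : ℝ) - 1 / 2 = (M : ℝ) + 1 / 2 := by push_cast; ring
    rw [h1]
    exact intervalIntegral.integral_add_adjacent_intervals
      ((continuous_hh R).intervalIntegrable _ _) ((continuous_hh R).intervalIntegrable _ _)

theorem total (R : ℝ) (M : ℕ) (hR : 1 ≤ R) (hM : R + 1 ≤ M) :
    ∑ m ∈ Icc 1 M, ∑ n ∈ Icc 1 M, ∫ s, ∫ t, ff R m n s t ∂unif ∂unif =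
      ∫ u in (1 / 2 : ℝ)..((M : ℝ) + 1 / 2), hh R u := by
  rw [← sum_int]
  refine sum_congr rfl fun m _ => ?_
  rw [← integral_finsetSum _ fun n _ => (integrable_ff R m n).integral_prod_left,
    ← int_unif (hh R) m]
  congr 1
  funext s
  exact sum_inner R M m s hR hM

/-- the integral of the profile of the circle -/
theorem quarter (R : ℝ) (hR : 0 < R) :
    ∫ u in (0 : ℝ)..R, Real.sqrt (R ^ 2 - u ^ 2) = Real.pi * R ^ 2 / 4 := by
  have h0 : ∫ x in (-1 : ℝ)..1, Real.sqrt (1 - x ^ 2) = Real.pi / 2 := integral_sqrt_one_sub_sq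
  have hi : ∀ a b : ℝ, IntervalIntegrable (fun x : ℝ => Real.sqrt (1 - x ^ 2)) volume a b :=
    fun a b => (by fun_prop : Continuous fun x : ℝ => Real.sqrt (1 - x ^ 2)).intervalIntegrable a b
  have h1 : ∫ x in (-1 : ℝ)..0, Real.sqrt (1 - x ^ 2) = ∫ x in (0 : ℝ)..1, Real.sqrt (1 - x ^ 2) := by
    have h2 := intervalIntegral.integral_comp_neg (a := 0) (b := 1)
      (fun x : ℝ => Real.sqrt (1 - x ^ 2))
    simp only [neg_sq, neg_zero] at h2
    exact h2.symm
  have h3 := intervalIntegral.integral_add_adjacent_intervals (hi (-1) 0) (hi 0 1)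
  have h4 : ∫ x in (0 : ℝ)..1, Real.sqrt (1 - x ^ 2) = Real.pi / 4 := by linarith
  have h5 := intervalIntegral.integral_comp_mul_left (a := 0) (b := 1)
    (fun u : ℝ => Real.sqrt (R ^ 2 - u ^ 2)) hR.ne'
  rw [mul_zero, mul_one, smul_eq_mul] at h5
  have h6 : ∫ x in (0 : ℝ)..1, Real.sqrt (R ^ 2 - (R * x) ^ 2) =
      R * ∫ x in (0 : ℝ)..1, Real.sqrt (1 - x ^ 2) := by
    rw [← intervalIntegral.integral_const_mul]
    refine intervalIntegral.integral_congr fun x _ => ?_
    change Real.sqrt (R ^ 2 - (R * x) ^ 2) = R * Real.sqrt (1 - x ^ 2)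
    rw [show R ^ 2 - (R * x) ^ 2 = R ^ 2 * (1 - x ^ 2) by ring, Real.sqrt_mul (sq_nonneg R),
      Real.sqrt_sq hR.le]
  rw [h6, h4] at h5
  field_simp at h5
  linarith

theorem profile (R : ℝ) (M : ℕ) (hR : 1 ≤ R) (hM : R + 1 ≤ M) :
    |(∫ u in (1 / 2 : ℝ)..((M : ℝ) + 1 / 2), hh R u) - (Real.pi * R ^ 2 / 4 - R)| ≤ 1 := by
  have hR0 : 0 < R := by linarith
  have hc : ∀ a b : ℝ, IntervalIntegrable (hh R) volume a b :=
    fun a b => (continuous_hh R).intervalIntegrable a b
  have hs : ∀ a b : ℝ, IntervalIntegrable (fun u : ℝ => Real.sqrt (R ^ 2 - u ^ 2)) volume a b :=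
    fun a b => (by fun_prop : Continuous fun u : ℝ => Real.sqrt (R ^ 2 - u ^ 2)).intervalIntegrable
      a b
  have hs' : ∀ a b : ℝ, IntervalIntegrable (fun u : ℝ => Real.sqrt (R ^ 2 - u ^ 2) - 1 / 2)
      volume a b :=
    fun a b => (by fun_prop : Continuous fun u : ℝ =>
      Real.sqrt (R ^ 2 - u ^ 2) - 1 / 2).intervalIntegrable a b
  -- beyond `R` the profile vanishes
  have h1 : ∫ u in R..((M : ℝ) + 1 / 2), hh R u = 0 := by
    apply intervalIntegral.integral_zero_ae
    refine ae_of_all _ fun u hu => ?_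
    rw [Set.uIoc_of_le (by linarith)] at hu
    unfold hh
    rw [Real.sqrt_eq_zero_of_nonpos (by nlinarith [hu.1])]
    norm_num
  have h2 : ∫ u in (1 / 2 : ℝ)..((M : ℝ) + 1 / 2), hh R u = ∫ u in (1 / 2 : ℝ)..R, hh R u := by
    rw [← intervalIntegral.integral_add_adjacent_intervals (hc (1 / 2) R) (hc R _), h1, add_zero]
  -- the quarter of the disc
  have h3 : (∫ u in (0 : ℝ)..(1 / 2), Real.sqrt (R ^ 2 - u ^ 2)) +
      ∫ u in (1 / 2 : ℝ)..R, Real.sqrt (R ^ 2 - u ^ 2) = Real.pi * R ^ 2 / 4 := by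
    rw [intervalIntegral.integral_add_adjacent_intervals (hs _ _) (hs _ _), quarter R hR0]
  have h4 : ∫ u in (0 : ℝ)..(1 / 2), Real.sqrt (R ^ 2 - u ^ 2) ≤ R / 2 := by
    have h5 : ∫ u in (0 : ℝ)..(1 / 2), Real.sqrt (R ^ 2 - u ^ 2) ≤ ∫ _u in (0 : ℝ)..(1 / 2), R :=
      intervalIntegral.integral_mono_on (by norm_num) (hs _ _) intervalIntegrable_const
        fun u _ => sqrt_le_R hR0.le u
    rw [intervalIntegral.integral_const, smul_eq_mul] at h5
    linarith
  have h6 : (R - 1 / 2) / 2 ≤ ∫ u in (0 : ℝ)..(1 / 2), Real.sqrt (R ^ 2 - u ^ 2) := by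
    have h5 : ∫ _u in (0 : ℝ)..(1 / 2), (R - 1 / 2) ≤
        ∫ u in (0 : ℝ)..(1 / 2), Real.sqrt (R ^ 2 - u ^ 2) :=
      intervalIntegral.integral_mono_on (by norm_num) intervalIntegrable_const (hs _ _)
        fun u hu => by
          apply Real.le_sqrt_of_sq_le
          nlinarith [hu.1, hu.2]
    rw [intervalIntegral.integral_const, smul_eq_mul] at h5
    linarith
  -- lower bound
  have h7 : (∫ u in (1 / 2 : ℝ)..R, Real.sqrt (R ^ 2 - u ^ 2)) - (R - 1 / 2) / 2 ≤
      ∫ u in (1 / 2 : ℝ)..R, hh R u := by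
    have h5 : ∫ u in (1 / 2 : ℝ)..R, (Real.sqrt (R ^ 2 - u ^ 2) - 1 / 2) ≤
        ∫ u in (1 / 2 : ℝ)..R, hh R u :=
      intervalIntegral.integral_mono_on (by linarith) (hs' _ _) (hc _ _) fun u _ => le_max_left _ _
    rw [intervalIntegral.integral_sub (hs _ _) intervalIntegrable_const,
      intervalIntegral.integral_const, smul_eq_mul] at h5
    linarith
  -- upper bound
  have h8 : ∫ u in (1 / 2 : ℝ)..R, hh R u ≤
      (∫ u in (1 / 2 : ℝ)..R, Real.sqrt (R ^ 2 - u ^ 2)) - (R - 1) / 2 := by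
    have e1 := intervalIntegral.integral_add_adjacent_intervals (hc (1 / 2) (R - 1 / 2))
      (hc (R - 1 / 2) R)
    have e2 := intervalIntegral.integral_add_adjacent_intervals (hs (1 / 2) (R - 1 / 2))
      (hs (R - 1 / 2) R)
    have e3 : ∫ u in (1 / 2 : ℝ)..(R - 1 / 2), hh R u ≤
        ∫ u in (1 / 2 : ℝ)..(R - 1 / 2), (Real.sqrt (R ^ 2 - u ^ 2) - 1 / 2) :=
      intervalIntegral.integral_mono_on (by linarith) (hc _ _) (hs' _ _) fun u hu => by
        unfold hh
        apply max_le le_rfl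
        have : 1 / 2 ≤ Real.sqrt (R ^ 2 - u ^ 2) := by
          apply Real.le_sqrt_of_sq_le
          nlinarith [hu.1, hu.2]
        linarith
    have e4 : ∫ u in (R - 1 / 2)..R, hh R u ≤ ∫ u in (R - 1 / 2)..R, Real.sqrt (R ^ 2 - u ^ 2) :=
      intervalIntegral.integral_mono_on (by linarith) (hc _ _) (hs _ _) fun u _ => by
        unfold hh
        exact max_le (by linarith) (Real.sqrt_nonneg _)
    rw [intervalIntegral.integral_sub (hs _ _) intervalIntegrable_const,
      intervalIntegral.integral_const, smul_eq_mul] at e3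
    linarith
  rw [h2, abs_le]
  constructor <;> linarith

/-- the diagonal -/
theorem diag (R : ℝ) (M : ℕ) :
    ∑ m ∈ Icc 1 M, |∫ θ, ff R m m (θ m) (θ m) ∂(prodLaw unif) -
      ∫ s, ∫ t, ff R m m s t ∂unif ∂unif| ≤ 1 := by
  have := prodLaw_prob
  set D : Finset ℕ := (Icc 1 M).filter fun m : ℕ =>
    2 * ((m : ℝ) - 1 / 2) ^ 2 ≤ R ^ 2 ∧ R ^ 2 < 2 * ((m : ℝ) + 1 / 2) ^ 2 with hD
  have hcard : D.card ≤ 1 := by
    rw [card_le_one]
    have key : ∀ a ∈ D, ∀ b ∈ D, a ≤ b := by
      intro a ha b hb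
      rw [hD, mem_filter, mem_Icc] at ha hb
      by_contra hab
      have h1 : (b : ℝ) + 1 ≤ a := by exact_mod_cast Nat.lt_of_not_le hab
      have hb1 : (1 : ℝ) ≤ b := by exact_mod_cast hb.1.1
      nlinarith [ha.2.1, hb.2.2]
    exact fun a ha b hb => le_antisymm (key a ha b hb) (key b hb a ha)
  have hterm : ∀ m ∈ Icc 1 M, |∫ θ, ff R m m (θ m) (θ m) ∂(prodLaw unif) -
      ∫ s, ∫ t, ff R m m s t ∂unif ∂unif| ≤ if m ∈ D then 1 else 0 := by
    intro m hm
    have hm1 : (1 : ℝ) ≤ m := by exact_mod_cast (mem_Icc.1 hm).1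
    by_cases h1 : 2 * ((m : ℝ) - 1 / 2) ^ 2 ≤ R ^ 2
    · by_cases h2 : R ^ 2 < 2 * ((m : ℝ) + 1 / 2) ^ 2
      · rw [if_pos (by rw [hD, mem_filter]; exact ⟨hm, h1, h2⟩)]
        have a1 : 0 ≤ ∫ θ, ff R m m (θ m) (θ m) ∂(prodLaw unif) :=
          integral_nonneg fun θ => ff_nonneg _ _ _ _ _
        have a2 : ∫ θ, ff R m m (θ m) (θ m) ∂(prodLaw unif) ≤ 1 := by
          have := integral_mono (integrable_ff' R m m) (integrable_const (1 : ℝ))
            fun θ => ff_le_one _ _ _ _ _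
          simpa using this
        have b1 : 0 ≤ ∫ s, ∫ t, ff R m m s t ∂unif ∂unif :=
          integral_nonneg fun s => integral_nonneg fun t => ff_nonneg _ _ _ _ _
        have b2 : ∫ s, ∫ t, ff R m m s t ∂unif ∂unif ≤ 1 := by
          rw [← integral_prod (fun p : ℝ × ℝ => ff R m m p.1 p.2) (integrable_ff R m m)]
          have := integral_mono (integrable_ff R m m) (integrable_const (1 : ℝ))
            fun p => ff_le_one _ _ _ _ _
          simpa using this
        rw [abs_le]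
        constructor <;> linarith
      · have h3 : ∀ s t, ff R m m s t = 1 := by
          intro s t
          unfold ff
          rw [if_pos]
          have hs0 := clip_nonneg s
          have hs1 := clip_le_one s
          have ht0 := clip_nonneg t
          have ht1 := clip_le_one t
          have e1 : ((m : ℝ) + clip s - 1 / 2) ^ 2 ≤ ((m : ℝ) + 1 / 2) ^ 2 :=
            pow_le_pow_left₀ (by linarith) (by linarith) 2
          have e2 : ((m : ℝ) + clip t - 1 / 2) ^ 2 ≤ ((m : ℝ) + 1 / 2) ^ 2 :=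
            pow_le_pow_left₀ (by linarith) (by linarith) 2
          linarith [not_lt.1 h2]
        simp only [h3]
        split_ifs <;> simp
    · have h3 : ∀ s t, ff R m m s t = 0 := by
        intro s t
        unfold ff
        rw [if_neg]
        have hs0 := clip_nonneg s
        have ht0 := clip_nonneg t
        have e1 : ((m : ℝ) - 1 / 2) ^ 2 ≤ ((m : ℝ) + clip s - 1 / 2) ^ 2 :=
          pow_le_pow_left₀ (by linarith) (by linarith) 2
        have e2 : ((m : ℝ) - 1 / 2) ^ 2 ≤ ((m : ℝ) + clip t - 1 / 2) ^ 2 :=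
          pow_le_pow_left₀ (by linarith) (by linarith) 2
        linarith [not_le.1 h1]
      simp only [h3]
      split_ifs <;> simp
  refine (sum_le_sum hterm).trans ?_
  rw [← sum_filter, sum_const, nsmul_eq_mul, mul_one]
  have h5 : (Icc 1 M).filter (fun m => m ∈ D) ⊆ D := fun m hm => (mem_filter.1 hm).2
  exact_mod_cast (card_le_card h5).trans hcard

theorem t_MEAN : S_MEAN := by
  refine ⟨2, by norm_num, fun R M hR hM => ?_⟩
  have h1 : ∫ θ, Q θ M R ∂(prodLaw unif) =
      ∑ m ∈ Icc 1 M, ∑ n ∈ Icc 1 M, ∫ θ, ff R m n (θ m) (θ n) ∂(prodLaw unif) := by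
    simp only [Q_eq]
    rw [integral_finsetSum _ fun m _ => integrable_finsetSum _ fun n _ => integrable_ff' R m n]
    exact sum_congr rfl fun m _ => integral_finsetSum _ fun n _ => integrable_ff' R m n
  have h2 : |∫ θ, Q θ M R ∂(prodLaw unif) -
      ∑ m ∈ Icc 1 M, ∑ n ∈ Icc 1 M, ∫ s, ∫ t, ff R m n s t ∂unif ∂unif| ≤ 1 := by
    rw [h1, ← sum_sub_distrib]
    refine (abs_sum_le_sum_abs _ _).trans ((sum_le_sum fun m hm => ?_).trans (diag R M))
    rw [← sum_sub_distrib, sum_eq_single_of_mem m hm fun n _ hn => ?_]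
    rw [off_diag R m n (Ne.symm hn), sub_self]
  rw [total R M hR hM] at h2
  have h3 := profile R M hR hM
  rw [abs_le] at h2 h3 ⊢
  constructor <;> linarith [h2.1, h2.2, h3.1, h3.2]

end Pool.Agent.U160.GC
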