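import Pool.Agent.U160.GC.Stm

set_option autoImplicit false

/-!
Project GC, package RED: from the four quadrants to one.
-/

namespace Pool.Agent.U160.GC

open MeasureTheory ProbabilityTheory Finset

namespace RED

theorem sum_sym (h : ℕ → ℝ) (M : ℕ) :
    ∑ m ∈ Icc (-(M : ℤ)) M, h m.natAbs = h 0 + 2 * ∑ n ∈ Icc 1 M, h n := by
  induction M with
  | zero => simp
  | succ M ih =>
    have e : Icc (-((M + 1 : ℕ) : ℤ)) ((M + 1 : ℕ) : ℤ) =
        insert (-((M + 1 : ℕ) : ℤ)) (insert ((M + 1 : ℕ) : ℤ) (Icc (-(M : ℤ)) M)) := by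
      ext x
      simp only [mem_Icc, mem_insert]
      omega
    rw [e, sum_insert, sum_insert, ih, Finset.sum_Icc_succ_top (by omega)]
    · rw [Int.natAbs_neg, Int.natAbs_natCast]
      ring
    · simp only [mem_Icc]
      omega
    · simp only [mem_insert, mem_Icc]
      omega

/-- the square of the coordinate -/
noncomputable def g (θ : ℕ → ℝ) (n : ℕ) : ℝ := if n = 0 then 0 else xx θ n ^ 2

theorem clip_eq {u : ℝ} (h0 : 0 ≤ u) (h1 : u ≤ 1) : clip u = u := by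
  unfold clip
  rw [min_eq_right h1, max_eq_right h0]

theorem pt_sq {θ : ℕ → ℝ} (hθ : ∀ n, 1 ≤ n → 0 ≤ θ n ∧ θ n ≤ 1) (m : ℤ) :
    pt θ m ^ 2 = g θ m.natAbs := by
  rcases lt_trichotomy m 0 with h | h | h
  · obtain ⟨n, rfl⟩ : ∃ n : ℕ, m = -(n : ℤ) := ⟨m.natAbs, by omega⟩
    have hn : 1 ≤ n := by omega
    unfold pt g xx
    rw [Int.natAbs_neg, Int.natAbs_natCast, if_neg (by omega), clip_eq (hθ n hn).1 (hθ n hn).2,
      Int.sign_eq_neg_one_of_neg h]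
    push_cast
    ring
  · subst h
    simp [pt, g]
  · obtain ⟨n, rfl⟩ : ∃ n : ℕ, m = (n : ℤ) := ⟨m.natAbs, by omega⟩
    have hn : 1 ≤ n := by omega
    unfold pt g xx
    rw [Int.natAbs_natCast, if_neg (by omega), clip_eq (hθ n hn).1 (hθ n hn).2,
      Int.sign_eq_one_of_pos h]
    push_cast
    ring

theorem g_nonneg (θ : ℕ → ℝ) (n : ℕ) : 0 ≤ g θ n := by
  unfold g
  split_ifs
  · exact le_refl _
  · positivity

theorem g_le {θ : ℕ → ℝ} (hθ : ∀ n, 1 ≤ n → 0 ≤ θ n ∧ θ n ≤ 1) {n : ℕ} (hn : 1 ≤ n) {R : ℝ}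
    (hR : 1 ≤ R) : (g θ n ≤ R ^ 2 → (n : ℝ) ≤ R + 1 / 2) ∧ ((n : ℝ) ≤ R - 1 / 2 → g θ n ≤ R ^ 2) := by
  have hn' : (1 : ℝ) ≤ n := by exact_mod_cast hn
  obtain ⟨h0, h1⟩ := hθ n hn
  unfold g xx
  rw [if_neg (by omega), clip_eq h0 h1]
  constructor
  · intro h
    have h2 : (n : ℝ) + θ n - 1 / 2 ≤ R := le_of_sq_le_sq h (by linarith)
    linarith
  · intro h
    exact pow_le_pow_left₀ (by linarith) (by linarith) 2

end RED

open RED

/-- Package RED. -/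
theorem t_RED : S_RED := by
  intro θ hθ R M hR hM
  have hset : {p : ℤ × ℤ | pt θ p.1 ^ 2 + pt θ p.2 ^ 2 ≤ R ^ 2} =
      (((Icc (-(M : ℤ)) M ×ˢ Icc (-(M : ℤ)) M).filter
        (fun p => g θ p.1.natAbs + g θ p.2.natAbs ≤ R ^ 2) : Finset (ℤ × ℤ)) : Set (ℤ × ℤ)) := by
    ext p
    rw [Set.mem_setOf_eq, pt_sq hθ, pt_sq hθ, Finset.mem_coe, mem_filter, mem_product, mem_Icc,
      mem_Icc]
    constructor
    · intro h
      have key : ∀ m : ℤ, g θ m.natAbs ≤ R ^ 2 → -(M : ℤ) ≤ m ∧ m ≤ M := by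
        intro m hm
        have h1 : m.natAbs ≤ M := by
          rcases Nat.eq_zero_or_pos m.natAbs with h0 | h0
          · omega
          · have h2 := (g_le hθ h0 hR).1 hm
            have h3 : (m.natAbs : ℝ) ≤ M := by linarith
            exact_mod_cast h3
        omega
      have g1 := g_nonneg θ p.1.natAbs
      have g2 := g_nonneg θ p.2.natAbs
      exact ⟨⟨key _ (by linarith), key _ (by linarith)⟩, h⟩
    · intro h
      exact h.2
  have hF : F θ R = ∑ m ∈ Icc (-(M : ℤ)) M, ∑ n ∈ Icc (-(M : ℤ)) M,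
      (if g θ m.natAbs + g θ n.natAbs ≤ R ^ 2 then (1 : ℝ) else 0) := by
    unfold F
    rw [hset, Set.ncard_coe_finset, card_filter, sum_product]
    push_cast
    rfl
  -- number of axis points
  obtain ⟨A, hA⟩ : ∃ A : ℝ, A = ∑ n ∈ Icc 1 M, (if g θ n ≤ R ^ 2 then (1 : ℝ) else 0) := ⟨_, rfl⟩
  have hF2 : F θ R = 1 + 4 * A + 4 * Q θ M R := by
    rw [hF]
    have h1 : ∀ m : ℤ, ∑ n ∈ Icc (-(M : ℤ)) M,
        (if g θ m.natAbs + g θ n.natAbs ≤ R ^ 2 then (1 : ℝ) else 0) =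
        (fun a : ℕ => (if g θ a + g θ 0 ≤ R ^ 2 then (1 : ℝ) else 0) +
          2 * ∑ n ∈ Icc 1 M, (if g θ a + g θ n ≤ R ^ 2 then (1 : ℝ) else 0)) m.natAbs := fun m =>
      sum_sym (fun b => if g θ m.natAbs + g θ b ≤ R ^ 2 then (1 : ℝ) else 0) M
    simp only [h1]
    rw [sum_sym (fun a : ℕ => (if g θ a + g θ 0 ≤ R ^ 2 then (1 : ℝ) else 0) +
          2 * ∑ n ∈ Icc 1 M, (if g θ a + g θ n ≤ R ^ 2 then (1 : ℝ) else 0)) M]
    have hg0 : g θ 0 = 0 := by simp [g]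
    simp only [hg0, zero_add, add_zero, sum_add_distrib, ← mul_sum]
    rw [if_pos (by positivity), ← hA]
    have hQ : ∑ m ∈ Icc 1 M, ∑ n ∈ Icc 1 M, (if g θ m + g θ n ≤ R ^ 2 then (1 : ℝ) else 0) =
        Q θ M R := by
      unfold Q
      refine sum_congr rfl fun m hm => sum_congr rfl fun n hn => ?_
      have e1 : g θ m = xx θ m ^ 2 := by
        unfold g
        rw [if_neg (by have := (mem_Icc.1 hm).1; omega)]
      have e2 : g θ n = xx θ n ^ 2 := by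
        unfold g
        rw [if_neg (by have := (mem_Icc.1 hn).1; omega)]
      rw [e1, e2]
    rw [hQ]
    ring
  have hAc : A = (((Icc 1 M).filter (fun n => g θ n ≤ R ^ 2)).card : ℝ) := by
    rw [hA, card_filter]
    push_cast
    rfl
  have hup : A ≤ R + 1 / 2 := by
    rw [hAc]
    have h1 : (Icc 1 M).filter (fun n => g θ n ≤ R ^ 2) ⊆ Icc 1 ⌊R + 1 / 2⌋₊ := by
      intro n hn
      rw [mem_filter, mem_Icc] at hn
      rw [mem_Icc]
      exact ⟨hn.1.1, Nat.le_floor ((g_le hθ hn.1.1 hR).1 hn.2)⟩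
    have h2 := card_le_card h1
    rw [Nat.card_Icc, Nat.add_sub_cancel] at h2
    calc (((Icc 1 M).filter (fun n => g θ n ≤ R ^ 2)).card : ℝ) ≤ (⌊R + 1 / 2⌋₊ : ℝ) := by
          exact_mod_cast h2
      _ ≤ R + 1 / 2 := Nat.floor_le (by linarith)
  have hlo : R - 3 / 2 ≤ A := by
    rw [hAc]
    have h1 : Icc 1 ⌊R - 1 / 2⌋₊ ⊆ (Icc 1 M).filter (fun n => g θ n ≤ R ^ 2) := by
      intro n hn
      rw [mem_Icc] at hn
      have h3 : (n : ℝ) ≤ R - 1 / 2 := (Nat.le_floor_iff (by linarith)).1 hn.2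
      rw [mem_filter, mem_Icc]
      refine ⟨⟨hn.1, ?_⟩, (g_le hθ hn.1 hR).2 h3⟩
      have h4 : (n : ℝ) ≤ M := by linarith
      exact_mod_cast h4
    have h2 := card_le_card h1
    rw [Nat.card_Icc, Nat.add_sub_cancel] at h2
    have h5 := Nat.lt_floor_add_one (R - 1 / 2)
    have h6 : (⌊R - 1 / 2⌋₊ : ℝ) ≤ (((Icc 1 M).filter (fun n => g θ n ≤ R ^ 2)).card : ℝ) := by
      exact_mod_cast h2
    linarith
  rw [hF2, abs_le]
  constructor <;> linarith

end Pool.Agent.U160.GC
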