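import Pool.Agent.U160.GC.Prob
import Pool.Agent.U160.GC.PkgRED
import Pool.Agent.U160.GC.PkgINF
import Pool.Agent.U160.GC.PkgMEAN

set_option autoImplicit false

namespace Pool.Agent.U160.GC

open MeasureTheory ProbabilityTheory Finset Filter Topology

theorem F_fin {θ : ℕ → ℝ} (hθ : ∀ n, 1 ≤ n → 0 ≤ θ n ∧ θ n ≤ 1) (R : ℝ) :
    {p : ℤ × ℤ | pt θ p.1 ^ 2 + pt θ p.2 ^ 2 ≤ R ^ 2}.Finite := by
  set B : ℤ := ⌈|R|⌉ + 1 with hB
  refine Set.Finite.subset ((Set.finite_Icc (-B) B).prod (Set.finite_Icc (-B) B)) ?_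
  have key : ∀ m : ℤ, pt θ m ^ 2 ≤ R ^ 2 → m ∈ Set.Icc (-B) B := by
    intro m hm
    have h1 : |pt θ m| ≤ |R| := sq_le_sq.1 hm
    have h2 : ((|m| : ℤ) : ℝ) ≤ |R| + 1 / 2 := by
      unfold pt at h1
      rcases lt_trichotomy m 0 with h | h | h
      · have hs : m.sign = -1 := Int.sign_eq_neg_one_of_neg h
        have h3 : 1 ≤ m.natAbs := by omega
        obtain ⟨h4, h5⟩ := hθ _ h3
        rw [hs] at h1
        push_cast at h1 ⊢
        have h6 : (m : ℝ) < 0 := by exact_mod_cast h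
        rw [abs_of_neg h6]
        have h7 := (abs_le.1 h1).1
        linarith
      · subst h
        simp only [abs_zero, Int.cast_zero]
        positivity
      · have hs : m.sign = 1 := Int.sign_eq_one_of_pos h
        have h3 : 1 ≤ m.natAbs := by omega
        obtain ⟨h4, h5⟩ := hθ _ h3
        rw [hs] at h1
        push_cast at h1 ⊢
        have h6 : (0 : ℝ) < m := by exact_mod_cast h
        rw [abs_of_pos h6]
        have h7 := (abs_le.1 h1).2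
        linarith
    have h3 : |R| ≤ (⌈|R|⌉ : ℝ) := Int.le_ceil _
    have h4 : ((|m| : ℤ) : ℝ) < ((B : ℤ) : ℝ) := by rw [hB]; push_cast at h2 ⊢; linarith
    have h5 : |m| < B := by exact_mod_cast h4
    exact abs_le.1 h5.le
  rintro ⟨m, n⟩ hp
  simp only [Set.mem_ofPred_eq] at hp
  exact ⟨key m (by nlinarith [sq_nonneg (pt θ n)]), key n (by nlinarith [sq_nonneg (pt θ m)])⟩

theorem F_mono {θ : ℕ → ℝ} (hθ : ∀ n, 1 ≤ n → 0 ≤ θ n ∧ θ n ≤ 1) {R R' : ℝ} (h0 : 0 ≤ R) (h : R ≤ R') :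
    F θ R ≤ F θ R' := by
  unfold F
  have h1 : {p : ℤ × ℤ | pt θ p.1 ^ 2 + pt θ p.2 ^ 2 ≤ R ^ 2} ⊆
      {p : ℤ × ℤ | pt θ p.1 ^ 2 + pt θ p.2 ^ 2 ≤ R' ^ 2} := fun p hp =>
    le_trans hp (pow_le_pow_left₀ h0 h 2)
  exact_mod_cast Set.ncard_le_ncard h1 (F_fin hθ R')

theorem F_nonneg (θ : ℕ → ℝ) (R : ℝ) : 0 ≤ F θ R := by unfold F; positivity

/-- the grid of radii -/
noncomputable def rho (j : ℕ) : ℝ := ((j : ℝ) ^ (1 / 3 : ℝ)) ^ 2

theorem cube_root (x : ℝ) (hx : 0 ≤ x) : (x ^ (1 / 3 : ℝ)) ^ 3 = x := by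
  rw [← Real.rpow_natCast, ← Real.rpow_mul hx]
  norm_num

theorem rho_step (j : ℕ) : rho (j + 1) ^ 2 - rho j ^ 2 ≤ 4 / 3 * ((j + 1 : ℕ) : ℝ) ^ (1 / 3 : ℝ) := by
  unfold rho
  set a : ℝ := ((j + 1 : ℕ) : ℝ) ^ (1 / 3 : ℝ) with ha
  set b : ℝ := ((j : ℕ) : ℝ) ^ (1 / 3 : ℝ) with hb
  have ha0 : 0 ≤ a := by positivity
  have hb0 : 0 ≤ b := by positivity
  have ha3 : a ^ 3 = (j : ℝ) + 1 := by rw [ha, cube_root _ (by positivity)]; push_cast; ring
  have hb3 : b ^ 3 = j := by rw [hb, cube_root _ (by positivity)]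
  have hab : b ≤ a := Real.rpow_le_rpow (by positivity) (by push_cast; linarith) (by norm_num)
  have h1 : (a - b) * (3 * b ^ 2) ≤ 1 := by
    have h2 : (a - b) * (a ^ 2 + a * b + b ^ 2) = 1 := by nlinarith
    have h3 : 3 * b ^ 2 ≤ a ^ 2 + a * b + b ^ 2 := by nlinarith
    calc (a - b) * (3 * b ^ 2) ≤ (a - b) * (a ^ 2 + a * b + b ^ 2) :=
          mul_le_mul_of_nonneg_left h3 (by linarith)
      _ = 1 := h2
  have h4 : (a ^ 2) ^ 2 - (b ^ 2) ^ 2 = a + b * ((a - b) * b ^ 2) := by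
    have : (a ^ 2) ^ 2 = a * a ^ 3 := by ring
    rw [this, ha3]
    have : (b ^ 2) ^ 2 = b * b ^ 3 := by ring
    rw [this, ← hb3]
    ring
  rw [h4]
  have h5 : b * ((a - b) * b ^ 2) ≤ b * (1 / 3) := mul_le_mul_of_nonneg_left (by linarith) hb0
  linarith

theorem rho_mono {i j : ℕ} (h : i ≤ j) : rho i ≤ rho j := by
  unfold rho
  apply pow_le_pow_left₀ (by positivity)
  exact Real.rpow_le_rpow (by positivity) (by exact_mod_cast h) (by norm_num)

theorem rho_double {j : ℕ} (hj : 1 ≤ j) : rho (j + 1) ≤ 2 * rho j := by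
  unfold rho
  have hj1 : (1 : ℝ) ≤ j := by exact_mod_cast hj
  have h1 : ((j + 1 : ℕ) : ℝ) ^ (1 / 3 : ℝ) ≤ 2 ^ (1 / 3 : ℝ) * (j : ℝ) ^ (1 / 3 : ℝ) := by
    rw [← Real.mul_rpow (by norm_num) (by positivity)]
    exact Real.rpow_le_rpow (by positivity) (by push_cast; linarith) (by norm_num)
  have h2 : ((2 : ℝ) ^ (1 / 3 : ℝ)) ^ 2 ≤ 2 := by
    rw [← Real.rpow_natCast, ← Real.rpow_mul (by norm_num)]
    calc (2 : ℝ) ^ (1 / 3 * ((2 : ℕ) : ℝ) : ℝ) ≤ 2 ^ (1 : ℝ) :=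
          Real.rpow_le_rpow_of_exponent_le (by norm_num) (by norm_num)
      _ = 2 := Real.rpow_one 2
  calc (((j + 1 : ℕ) : ℝ) ^ (1 / 3 : ℝ)) ^ 2 ≤ (2 ^ (1 / 3 : ℝ) * (j : ℝ) ^ (1 / 3 : ℝ)) ^ 2 :=
        pow_le_pow_left₀ (by positivity) h1 2
    _ = ((2 : ℝ) ^ (1 / 3 : ℝ)) ^ 2 * ((j : ℝ) ^ (1 / 3 : ℝ)) ^ 2 := mul_pow _ _ _
    _ ≤ 2 * ((j : ℝ) ^ (1 / 3 : ℝ)) ^ 2 := by gcongr

theorem rho_sqrt (j : ℕ) : ((j : ℕ) : ℝ) ^ (1 / 3 : ℝ) = Real.sqrt (rho j) := by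
  unfold rho
  rw [Real.sqrt_sq (by positivity)]

theorem rho_ge_one {j : ℕ} (hj : 1 ≤ j) : 1 ≤ rho j := by
  unfold rho
  exact one_le_pow₀ (Real.one_le_rpow (by exact_mod_cast hj) (by norm_num))

theorem grid_all {θ : ℕ → ℝ} (hθ : ∀ n, 1 ≤ n → 0 ≤ θ n ∧ θ n ≤ 1) (L : ℝ → ℝ)
    (hL1 : ∀ R, 1 ≤ R → Real.sqrt R ≤ L R) (hLm : ∀ R R', 1 ≤ R → R ≤ R' → L R ≤ L R')
    (hLd : ∀ R, 1 ≤ R → L (2 * R) ≤ 4 * L R) (C1 : ℝ) (hC1 : 0 ≤ C1)
    (h : ∀ᶠ j : ℕ in atTop, |F θ (rho j) - Real.pi * rho j ^ 2| ≤ C1 * L (rho j)) :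
    ∃ C : ℝ, ∀ R : ℝ, 1 ≤ R → |F θ R - Real.pi * R ^ 2| ≤ C * L R := by
  obtain ⟨j0, hj0⟩ := eventually_atTop.1 h
  set j1 : ℕ := max j0 1 with hj1
  have hpi := Real.pi_pos
  have hpi4 : Real.pi ≤ 4 := Real.pi_le_four
  set C3 : ℝ := F θ (rho j1) + Real.pi * rho j1 ^ 2 with hC3
  have hC30 : 0 ≤ C3 := by have := F_nonneg θ (rho j1); positivity
  refine ⟨max C3 (4 * (C1 + 6)), fun R hR => ?_⟩
  have hLR : 1 ≤ L R := by
    have := hL1 R hR
    have h2 : (1 : ℝ) ≤ Real.sqrt R := by rw [Real.one_le_sqrt]; exact hR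
    linarith
  by_cases hRj : R ≤ rho j1
  · have h1 : F θ R ≤ F θ (rho j1) := F_mono hθ (by linarith) hRj
    have h2 := F_nonneg θ R
    have h3 : R ^ 2 ≤ rho j1 ^ 2 := pow_le_pow_left₀ (by linarith) hRj 2
    have h4 : |F θ R - Real.pi * R ^ 2| ≤ C3 := by
      rw [abs_le]; constructor
      · have : Real.pi * R ^ 2 ≤ Real.pi * rho j1 ^ 2 := by gcongr
        have := F_nonneg θ (rho j1)
        linarith
      · have : 0 ≤ Real.pi * R ^ 2 := by positivity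
        have : 0 ≤ Real.pi * rho j1 ^ 2 := by positivity
        linarith
    calc _ ≤ C3 := h4
      _ ≤ C3 * L R := le_mul_of_one_le_right hC30 hLR
      _ ≤ _ := mul_le_mul_of_nonneg_right (le_max_left _ _) (by linarith)
  · push Not at hRj
    -- the index
    set x : ℝ := (Real.sqrt R) ^ 3 with hx
    have hs1 : 1 ≤ Real.sqrt R := by rw [Real.one_le_sqrt]; exact hR
    have hss : Real.sqrt R ^ 2 = R := Real.sq_sqrt (by linarith)
    have hx0 : 0 ≤ x := by positivity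
    have hxr : x ^ (1 / 3 : ℝ) = Real.sqrt R := by
      rw [hx, ← Real.rpow_natCast, ← Real.rpow_mul (by positivity)]
      norm_num
    set j : ℕ := ⌊x⌋₊ with hj
    have hjx : (j : ℝ) ≤ x := Nat.floor_le hx0
    have hxj : x < (j : ℝ) + 1 := Nat.lt_floor_add_one x
    have hlo : rho j ≤ R := by
      unfold rho
      rw [← hss]
      apply pow_le_pow_left₀ (by positivity)
      rw [← hxr]
      exact Real.rpow_le_rpow (by positivity) hjx (by norm_num)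
    have hhi : R ≤ rho (j + 1) := by
      unfold rho
      rw [← hss]
      apply pow_le_pow_left₀ (by positivity)
      rw [← hxr]
      exact Real.rpow_le_rpow hx0 (by push_cast; exact hxj.le) (by norm_num)
    have hjj : j1 ≤ j := by
      by_contra hcon
      push Not at hcon
      have : rho (j + 1) ≤ rho j1 := rho_mono hcon
      linarith
    have hj1' : 1 ≤ j := le_trans (le_max_right _ _) hjj
    have hj0' : j0 ≤ j := le_trans (le_max_left _ _) hjj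
    have e1 := hj0 j hj0'
    have e2 := hj0 (j + 1) (by omega)
    have hd2 : rho (j + 1) ≤ 2 * R := by
      have := rho_double hj1'
      linarith
    have hL2 : L (rho (j + 1)) ≤ 4 * L R := (hLm _ _ (rho_ge_one (by omega)) hd2).trans (hLd R hR)
    have hL3 : L (rho j) ≤ 4 * L R := (hLm _ _ (rho_ge_one hj1') (rho_mono (by omega : j ≤ j + 1))).trans hL2
    have hstep : Real.pi * (rho (j + 1) ^ 2 - rho j ^ 2) ≤ 6 * (4 * L R) := by
      have h1 := rho_step j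
      rw [rho_sqrt (j + 1)] at h1
      have h2 := hL1 (rho (j + 1)) (rho_ge_one (by omega))
      have h3 : 0 ≤ Real.sqrt (rho (j + 1)) := Real.sqrt_nonneg _
      calc Real.pi * (rho (j + 1) ^ 2 - rho j ^ 2) ≤ 4 * (4 / 3 * Real.sqrt (rho (j + 1))) := by
            apply mul_le_mul hpi4 h1 _ (by norm_num)
            have : rho j ^ 2 ≤ rho (j + 1) ^ 2 := pow_le_pow_left₀ (by unfold rho; positivity) (rho_mono (by omega)) 2
            linarith
        _ ≤ 6 * (4 * L R) := by nlinarith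
    have hF1 := F_mono hθ (by linarith : 0 ≤ R) hhi
    have hF2 := F_mono hθ (by unfold rho; positivity : 0 ≤ rho j) hlo
    have hq1 : Real.pi * rho j ^ 2 ≤ Real.pi * R ^ 2 := by
      have : rho j ^ 2 ≤ R ^ 2 := pow_le_pow_left₀ (by unfold rho; positivity) hlo 2
      gcongr
    have hq2 : Real.pi * R ^ 2 ≤ Real.pi * rho (j + 1) ^ 2 := by
      have : R ^ 2 ≤ rho (j + 1) ^ 2 := pow_le_pow_left₀ (by linarith) hhi 2
      gcongr
    have hgoal : |F θ R - Real.pi * R ^ 2| ≤ 4 * (C1 + 6) * L R := by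
      rw [abs_le] at e1 e2 ⊢
      have g1 : C1 * L (rho (j + 1)) ≤ C1 * (4 * L R) := mul_le_mul_of_nonneg_left hL2 hC1
      have g2 : C1 * L (rho j) ≤ C1 * (4 * L R) := mul_le_mul_of_nonneg_left hL3 hC1
      constructor
      · nlinarith [e1.1, e1.2]
      · nlinarith [e2.1, e2.2]
    exact hgoal.trans (mul_le_mul_of_nonneg_right (le_max_right _ _) (by linarith))

end Pool.Agent.U160.GC
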