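import Pool.Agent.U160.GC.Det

set_option autoImplicit false

namespace Pool.Agent.U160.GC

open MeasureTheory ProbabilityTheory Finset Filter Topology
open Pool.Agent.U160.VP (KInd kind_of_iInd frac cube cube_prob frac_kind frac_meas law_one t_R2)

/-- the indicator of one point -/
noncomputable def gq (R : ℝ) (p : ℕ × ℕ) (θ : ℕ → ℝ) : ℝ := if xx θ p.1 ^ 2 + xx θ p.2 ^ 2 ≤ R ^ 2 then 1 else 0

theorem Qs_eq (θ : ℕ → ℝ) (M : ℕ) (R : ℝ) : Q θ M R = ∑ p ∈ Icc 1 M ×ˢ Icc 1 M, gq R p θ := by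
  unfold Q gq
  rw [sum_product]

theorem xxs_meas (n : ℕ) : Measurable (fun θ : ℕ → ℝ => xx θ n) := by
  unfold xx clip
  fun_prop

theorem gq_meas (R : ℝ) (p : ℕ × ℕ) : Measurable (gq R p) := by
  unfold gq
  apply Measurable.ite _ measurable_const measurable_const
  exact measurableSet_le (((xxs_meas p.1).pow_const 2).add ((xxs_meas p.2).pow_const 2)) measurable_const

theorem gq_le (R : ℝ) (p : ℕ × ℕ) (θ : ℕ → ℝ) : |gq R p θ| ≤ 1 := by
  unfold gq
  split_ifs <;> simp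

theorem xxs_dep {x y : ℕ → ℝ} {n : ℕ} (h : x n = y n) : xx x n = xx y n := by
  unfold xx; rw [h]

theorem gq_dep (R : ℝ) (p : ℕ × ℕ) (x y : ℕ → ℝ) (h : ∀ m ∈ ({p.1, p.2} : Finset ℕ), x m = y m) :
    gq R p x = gq R p y := by
  unfold gq
  rw [xxs_dep (h p.1 (by simp)), xxs_dep (h p.2 (by simp))]

theorem Qs_meas (M : ℕ) (R : ℝ) : Measurable (fun θ : ℕ → ℝ => Q θ M R) := by
  simp_rw [Qs_eq]
  exact Finset.measurable_sum _ fun p _ => gq_meas R p

theorem Qs_dep (M : ℕ) (R : ℝ) (x y : ℕ → ℝ) (h : ∀ n ∈ Icc 1 M, x n = y n) : Q x M R = Q y M R := by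
  simp_rw [Qs_eq]
  refine sum_congr rfl fun p hp => gq_dep R p x y fun m hm => ?_
  rw [mem_product] at hp
  simp only [mem_insert, mem_singleton] at hm
  rcases hm with rfl | rfl
  · exact h _ hp.1
  · exact h _ hp.2

/-- the number of coordinates used at radius `R` -/
noncomputable def MM (R : ℝ) : ℕ := ⌈R⌉₊ + 1

theorem MM_ge (R : ℝ) : R + 1 ≤ MM R := by
  unfold MM; push_cast; linarith [Nat.le_ceil R]

/-- the mean -/
noncomputable def EQ (R : ℝ) : ℝ := ∫ θ, Q θ (MM R) R ∂(prodLaw unif)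

theorem moment_kind : ∃ C : ℝ, 0 < C ∧ ∀ q : ℕ, ∀ (Ω : Type) [MeasurableSpace Ω] (P : Measure Ω)
    [IsProbabilityMeasure P] (X : ℕ → Ω → ℝ), (∀ n, Measurable (X n)) → KInd (4 * q) P X unif →
    ∀ R : ℝ, 1 ≤ R → ∫ ω, (Q (fun n => X n ω) (MM R) R - EQ R) ^ (2 * q) ∂P ≤
      4 * (2 * q).factorial * (C * R * (1 + Real.log R)) ^ q := by
  obtain ⟨C, hC, h⟩ := t_INF
  refine ⟨C, hC, ?_⟩
  intro q Ω _ P _ X hX hind R hR
  have hP : IsProbabilityMeasure (prodLaw unif) := by unfold prodLaw; infer_instance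
  obtain ⟨c, hc, hc2, hb⟩ := h R (MM R) hR
  have hlog : 0 ≤ Real.log R := Real.log_nonneg hR
  have hind' : iIndepFun (fun (n : ℕ) (ω : ℕ → ℝ) => ω n) (prodLaw unif) :=
    iIndepFun_infinitePi (X := fun _ x => x) (fun _ => measurable_id)
  have hlaw' : ∀ n, (prodLaw unif).map (fun ω : ℕ → ℝ => ω n) = unif := fun n =>
    Measure.infinitePi_map_eval (fun _ => unif) n
  have hX' : ∀ n : ℕ, Measurable (fun ω : ℕ → ℝ => ω n) := fun n => measurable_pi_apply n
  have hk' : KInd (4 * q) (prodLaw unif) (fun n ω => ω n) unif :=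
    kind_of_iInd (prodLaw unif) _ _ hX' hind' hlaw'
  have h1 := mcd_moment unif (MM R) (fun θ => Q θ (MM R) R) c (Qs_meas _ _) (Qs_dep _ _) hc hb
    (C * R * (1 + Real.log R)) (by positivity) hc2 q
  refine le_trans (le_of_eq ?_) h1
  simp_rw [Qs_eq]
  have h2 := transfer_gen P (prodLaw unif) X (fun n ω => ω n) unif hX hX' hind hk' (Icc 1 (MM R) ×ˢ Icc 1 (MM R))
    (fun p => {p.1, p.2}) (gq R) (gq_meas R) 1 (gq_le R) (gq_dep R)
    (by
      intro p hp m hm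
      rw [mem_product] at hp
      simp only [mem_insert, mem_singleton] at hm
      rcases hm with rfl | rfl
      · exact (mem_Icc.1 hp.1).1
      · exact (mem_Icc.1 hp.2).1)
    (d := 2) (q := 2 * q) (fun p _ => card_le_two) (by omega) (EQ R)
  rw [h2]
  unfold EQ
  simp_rw [Qs_eq]

theorem rho_pos {j : ℕ} (hj : 1 ≤ j) : 0 < rho j := lt_of_lt_of_le one_pos (rho_ge_one hj)

theorem rho_rpow (j : ℕ) (s : ℝ) : rho j ^ s = (j : ℝ) ^ (2 / 3 * s) := by
  unfold rho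
  rw [← Real.rpow_natCast, ← Real.rpow_mul (by positivity), ← Real.rpow_mul (by positivity)]
  congr 1
  push_cast
  ring

/-- from `Q` to `F` -/
theorem F_of_Q : ∃ C : ℝ, 0 < C ∧ ∀ θ : ℕ → ℝ, (∀ n, 1 ≤ n → 0 ≤ θ n ∧ θ n ≤ 1) → ∀ R : ℝ, 1 ≤ R →
    |F θ R - Real.pi * R ^ 2| ≤ 4 * |Q θ (MM R) R - EQ R| + C := by
  obtain ⟨C, hC, h⟩ := t_MEAN
  refine ⟨10 + 4 * C, by positivity, ?_⟩
  intro θ hθ R hR
  have h1 := t_RED θ hθ R (MM R) hR (MM_ge R)
  have h2 : |EQ R - (Real.pi * R ^ 2 / 4 - R)| ≤ C := h R (MM R) hR (MM_ge R)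
  have h3 : F θ R - Real.pi * R ^ 2 = (F θ R - 4 * Q θ (MM R) R - 4 * R) + 4 * (Q θ (MM R) R - EQ R) +
      4 * (EQ R - (Real.pi * R ^ 2 / 4 - R)) := by ring
  rw [h3]
  calc _ ≤ |(F θ R - 4 * Q θ (MM R) R - 4 * R) + 4 * (Q θ (MM R) R - EQ R)| +
        |4 * (EQ R - (Real.pi * R ^ 2 / 4 - R))| := abs_add_le _ _
    _ ≤ |F θ R - 4 * Q θ (MM R) R - 4 * R| + |4 * (Q θ (MM R) R - EQ R)| +
        |4 * (EQ R - (Real.pi * R ^ 2 / 4 - R))| := by gcongr; exact abs_add_le _ _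
    _ ≤ _ := by
      rw [abs_mul, abs_mul, abs_of_pos (show (0 : ℝ) < 4 by norm_num)]
      linarith

/-- the tail for `4q`-wise independent perturbations -/
theorem tail_kind (q : ℕ) (τ : ℝ) (hτ : 0 < τ) : ∃ C : ℝ, 0 < C ∧ ∀ (Ω : Type) [MeasurableSpace Ω] (P : Measure Ω)
    [IsProbabilityMeasure P] (X : ℕ → Ω → ℝ), (∀ n, Measurable (X n)) → KInd (4 * q) P X unif →
    ∀ R ε : ℝ, 1 ≤ R → P.real {ω | R ^ (1 / 2 + ε) ≤ |Q (fun n => X n ω) (MM R) R - EQ R|} ≤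
      C * R ^ (q * τ - 2 * q * ε) := by
  obtain ⟨C, hC, h⟩ := moment_kind
  refine ⟨4 * (2 * q).factorial * (C * (1 + 1 / τ)) ^ q, by positivity, ?_⟩
  intro Ω _ P _ X hX hind R ε hR
  have hR0 : 0 < R := by linarith
  have h1 := h q Ω P X hX hind R hR
  set Y : Ω → ℝ := fun ω => Q (fun n => X n ω) (MM R) R with hY
  have hYm : Measurable Y := (Qs_meas (MM R) R).comp (measurable_pi_iff.2 hX)
  have hYb : ∀ ω, |Y ω| ≤ ((Icc 1 (MM R) ×ˢ Icc 1 (MM R)).card : ℝ) := by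
    intro ω
    simp only [hY]
    rw [Qs_eq]
    calc _ ≤ ∑ p ∈ Icc 1 (MM R) ×ˢ Icc 1 (MM R), |gq R p (fun n => X n ω)| := abs_sum_le_sum_abs _ _
      _ ≤ ∑ _p ∈ Icc 1 (MM R) ×ˢ Icc 1 (MM R), (1 : ℝ) := sum_le_sum fun p _ => gq_le _ _ _
      _ = _ := by simp
  have hint : Integrable (fun ω => (Y ω - EQ R) ^ (2 * q)) P := by
    apply Integrable.of_bound ((hYm.sub_const (EQ R)).pow_const (2 * q)).aestronglyMeasurable
      ((((Icc 1 (MM R) ×ˢ Icc 1 (MM R)).card : ℝ) + |EQ R|) ^ (2 * q))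
    refine Filter.Eventually.of_forall fun ω => ?_
    rw [norm_pow]
    apply pow_le_pow_left₀ (norm_nonneg _)
    calc _ ≤ ‖Y ω‖ + ‖EQ R‖ := norm_sub_le _ _
      _ ≤ _ := by
        rw [Real.norm_eq_abs, Real.norm_eq_abs]; linarith [hYb ω]
  have hmark := mul_meas_ge_le_integral_of_nonneg (μ := P) (f := fun ω => (Y ω - EQ R) ^ (2 * q))
    (Filter.Eventually.of_forall fun ω => (even_two_mul q).pow_nonneg _) hint ((R ^ (1 / 2 + ε)) ^ (2 * q))
  have hsub : P.real {ω | R ^ (1 / 2 + ε) ≤ |Y ω - EQ R|} ≤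
      P.real {ω | (R ^ (1 / 2 + ε)) ^ (2 * q) ≤ (Y ω - EQ R) ^ (2 * q)} := by
    refine measureReal_mono (fun ω hω => ?_) (measure_ne_top _ _)
    simp only [Set.mem_ofPred_eq] at hω ⊢
    rw [← (even_two_mul q).pow_abs (Y ω - EQ R)]
    exact pow_le_pow_left₀ (by positivity) hω _
  refine hsub.trans ?_
  have h2 := hmark.trans h1
  -- the logarithm
  have hlog0 : 0 ≤ Real.log R := Real.log_nonneg hR
  have hlog : 1 + Real.log R ≤ (1 + 1 / τ) * R ^ τ := by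
    have h3 := Real.log_le_rpow_div hR0.le hτ
    have h4 : 1 ≤ R ^ τ := Real.one_le_rpow hR hτ.le
    have h5 : R ^ τ / τ = 1 / τ * R ^ τ := by ring
    nlinarith
  have h3 : (C * R * (1 + Real.log R)) ^ q ≤ (C * (1 + 1 / τ)) ^ q * R ^ (q * (1 + τ)) := by
    calc (C * R * (1 + Real.log R)) ^ q ≤ (C * R * ((1 + 1 / τ) * R ^ τ)) ^ q := by
          apply pow_le_pow_left₀ (by positivity)
          exact mul_le_mul_of_nonneg_left hlog (by positivity)
      _ = (C * (1 + 1 / τ)) ^ q * (R ^ (1 + τ)) ^ q := by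
          rw [← mul_pow, Real.rpow_add hR0, Real.rpow_one]; congr 1; ring
      _ = _ := by
          congr 1
          rw [← Real.rpow_natCast (R ^ (1 + τ)), ← Real.rpow_mul hR0.le]; congr 1; ring
  have h4 : (R ^ (1 / 2 + ε)) ^ (2 * q) = R ^ (q + 2 * q * ε) := by
    rw [← Real.rpow_natCast, ← Real.rpow_mul hR0.le]; congr 1; push_cast; ring
  rw [h4] at h2 ⊢
  have h5 : 0 < R ^ ((q : ℝ) + 2 * q * ε) := by positivity
  have h6 : R ^ ((q : ℝ) + 2 * q * ε) * P.real {ω | R ^ ((q : ℝ) + 2 * q * ε) ≤ (Y ω - EQ R) ^ (2 * q)} ≤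
      R ^ ((q : ℝ) + 2 * q * ε) * (4 * (2 * q).factorial * (C * (1 + 1 / τ)) ^ q * R ^ (q * τ - 2 * q * ε)) := by
    refine h2.trans ?_
    calc 4 * ((2 * q).factorial : ℝ) * (C * R * (1 + Real.log R)) ^ q
        ≤ 4 * ((2 * q).factorial : ℝ) * ((C * (1 + 1 / τ)) ^ q * R ^ (q * (1 + τ))) := by gcongr
      _ = 4 * ((2 * q).factorial : ℝ) * (C * (1 + 1 / τ)) ^ q * (R ^ ((q : ℝ) + 2 * q * ε) * R ^ (q * τ - 2 * q * ε)) := by
          rw [← Real.rpow_add hR0]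
          have : (q : ℝ) + 2 * q * ε + (q * τ - 2 * q * ε) = q * (1 + τ) := by ring
          rw [this]; ring
      _ = _ := by ring
  exact le_of_mul_le_mul_left h6 h5

/-- the circle problem for `4q`-wise independent perturbations -/
theorem circle_kind (q : ℕ) (ε : ℝ) (hε : 0 < ε) (hε1 : ε ≤ 1) (hq : 3 < 4 * q * ε) (Ω : Type) [MeasurableSpace Ω]
    (P : Measure Ω) [IsProbabilityMeasure P] (X : ℕ → Ω → ℝ) (hX : ∀ n, Measurable (X n))
    (hind : KInd (4 * q) P X unif) :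
    ∀ᵐ ω ∂P, (∀ n, 1 ≤ n → 0 ≤ X n ω ∧ X n ω ≤ 1) → ∃ C : ℝ, ∀ R : ℝ, 1 ≤ R →
      |F (fun n => X n ω) R - Real.pi * R ^ 2| ≤ C * R ^ (1 / 2 + ε) := by
  have hq0 : (0 : ℝ) < q := by
    by_contra hcon
    have : (q : ℝ) ≤ 0 := not_lt.1 hcon
    nlinarith
  set τ : ℝ := (4 * q * ε - 3) / (4 * q) with hτ
  have hτ0 : 0 < τ := by rw [hτ]; apply div_pos <;> linarith
  obtain ⟨C, hC, hT⟩ := tail_kind q τ hτ0
  obtain ⟨C', hC', hF⟩ := F_of_Q
  set B : ℕ → Set Ω := fun j => {ω | rho j ^ (1 / 2 + ε) ≤ |Q (fun n => X n ω) (MM (rho j)) (rho j) - EQ (rho j)|}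
    with hB
  set p : ℝ := 2 / 3 * (2 * q * ε - q * τ) with hp
  have hp1 : 1 < p := by
    have h1 : (q : ℝ) * τ = (4 * q * ε - 3) / 4 := by rw [hτ]; field_simp
    rw [hp, h1]; linarith
  have hBj : ∀ j : ℕ, P.real (B (j + 1)) ≤ C * ((j + 1 : ℕ) : ℝ) ^ (-p) := by
    intro j
    refine (hT Ω P X hX hind (rho (j + 1)) ε (rho_ge_one (by omega))).trans (le_of_eq ?_)
    rw [rho_rpow]
    congr 2
    rw [hp]; ring
  have hsum : Summable (fun j : ℕ => C * ((j + 1 : ℕ) : ℝ) ^ (-p)) := by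
    apply Summable.mul_left
    exact (summable_nat_add_iff 1).2 (Real.summable_nat_rpow.2 (by linarith))
  have hne : ∑' j, P (B (j + 1)) ≠ ⊤ := by
    refine ne_top_of_le_ne_top hsum.tsum_ofReal_ne_top (ENNReal.tsum_le_tsum fun j => ?_)
    rw [show P (B (j + 1)) = ENNReal.ofReal (P.real (B (j + 1))) by rw [ofReal_measureReal]]
    exact ENNReal.ofReal_le_ofReal (hBj j)
  filter_upwards [ae_eventually_notMem hne] with ω hω hpos
  refine grid_all hpos (fun R => R ^ (1 / 2 + ε)) ?_ ?_ ?_ (4 + C') (by positivity) ?_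
  · intro R hR
    rw [Real.sqrt_eq_rpow]
    exact Real.rpow_le_rpow_of_exponent_le hR (by linarith)
  · intro R R' hR h
    exact Real.rpow_le_rpow (by linarith) h (by linarith)
  · intro R hR
    rw [Real.mul_rpow (by norm_num) (by linarith)]
    apply mul_le_mul_of_nonneg_right _ (by positivity)
    calc (2 : ℝ) ^ (1 / 2 + ε) ≤ 2 ^ (2 : ℝ) := Real.rpow_le_rpow_of_exponent_le (by norm_num) (by linarith)
      _ = 4 := by norm_num
  · obtain ⟨j0, hj0⟩ := eventually_atTop.1 hω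
    refine eventually_atTop.2 ⟨j0 + 1, fun j hj => ?_⟩
    have h1 := hj0 (j - 1) (by omega)
    rw [show j - 1 + 1 = j by omega] at h1
    have h2 : |Q (fun n => X n ω) (MM (rho j)) (rho j) - EQ (rho j)| < rho j ^ (1 / 2 + ε) := by
      by_contra hcon
      exact h1 (not_lt.1 hcon)
    have hr1 : 1 ≤ rho j := rho_ge_one (by omega)
    have h3 := hF (fun n => X n ω) hpos (rho j) hr1
    have h4 : 1 ≤ rho j ^ (1 / 2 + ε) := Real.one_le_rpow hr1 (by linarith)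
    nlinarith

/-- the circle problem for independent perturbations -/
theorem circle_iid : ∀ᵐ θ ∂(prodLaw unif), (∀ n, 1 ≤ n → 0 ≤ θ n ∧ θ n ≤ 1) → ∃ C : ℝ, ∀ R : ℝ, 1 ≤ R →
    |F θ R - Real.pi * R ^ 2| ≤ C * (Real.sqrt R * (1 + Real.log R)) := by
  obtain ⟨C, hC, h⟩ := t_INF
  obtain ⟨C', hC', hF⟩ := F_of_Q
  have hP : IsProbabilityMeasure (prodLaw unif) := by unfold prodLaw; infer_instance
  set K : ℝ := Real.sqrt (4 * C) with hK
  have hK0 : 0 < K := Real.sqrt_pos.2 (by positivity)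
  have hK2 : K ^ 2 = 4 * C := Real.sq_sqrt (by positivity)
  set B : ℕ → Set (ℕ → ℝ) := fun j => {θ | K * (Real.sqrt (rho j) * (1 + Real.log (rho j))) ≤
    |Q θ (MM (rho j)) (rho j) - EQ (rho j)|} with hB
  have hBj : ∀ j : ℕ, (prodLaw unif).real (B (j + 1)) ≤ 2 * ((j + 1 : ℕ) : ℝ) ^ (-(4 / 3) : ℝ) := by
    intro j
    set R := rho (j + 1) with hR
    have hR1 : 1 ≤ R := rho_ge_one (by omega)
    have hR0 : 0 < R := by linarith
    have hlog : 0 ≤ Real.log R := Real.log_nonneg hR1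
    obtain ⟨c, hc, hc2, hb⟩ := h R (MM R) hR1
    have h1 := mcd_tail unif (MM R) (fun θ => Q θ (MM R) R) c (Qs_meas _ _) (Qs_dep _ _) hc hb
      (C * R * (1 + Real.log R)) (by positivity) hc2 (K * (Real.sqrt R * (1 + Real.log R)))
      (by have := Real.sqrt_pos.2 hR0; positivity)
    refine h1.trans ?_
    have h2 : (K * (Real.sqrt R * (1 + Real.log R))) ^ 2 / (2 * (C * R * (1 + Real.log R))) =
        2 * (1 + Real.log R) := by
      have h3 : (K * (Real.sqrt R * (1 + Real.log R))) ^ 2 = K ^ 2 * (Real.sqrt R ^ 2) * (1 + Real.log R) ^ 2 := by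
        ring
      rw [h3, hK2, Real.sq_sqrt hR0.le]
      have : 0 < 1 + Real.log R := by linarith
      field_simp
      ring
    rw [h2]
    have h4 : Real.exp (-(2 * (1 + Real.log R))) ≤ R ^ (-2 : ℝ) := by
      rw [Real.rpow_def_of_pos hR0]
      apply Real.exp_le_exp.2
      linarith
    have h5 : R ^ (-2 : ℝ) = ((j + 1 : ℕ) : ℝ) ^ (-(4 / 3) : ℝ) := by
      rw [hR, rho_rpow]; congr 1; norm_num
    rw [← h5]
    linarith
  have hsum : Summable (fun j : ℕ => 2 * ((j + 1 : ℕ) : ℝ) ^ (-(4 / 3) : ℝ)) := by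
    apply Summable.mul_left
    exact (summable_nat_add_iff 1).2 (Real.summable_nat_rpow.2 (by norm_num))
  have hne : ∑' j, (prodLaw unif) (B (j + 1)) ≠ ⊤ := by
    refine ne_top_of_le_ne_top hsum.tsum_ofReal_ne_top (ENNReal.tsum_le_tsum fun j => ?_)
    rw [show (prodLaw unif) (B (j + 1)) = ENNReal.ofReal ((prodLaw unif).real (B (j + 1))) by rw [ofReal_measureReal]]
    exact ENNReal.ofReal_le_ofReal (hBj j)
  filter_upwards [ae_eventually_notMem hne] with θ hθ hpos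
  refine grid_all hpos (fun R => Real.sqrt R * (1 + Real.log R)) ?_ ?_ ?_ (4 * K + C') (by positivity) ?_
  · intro R hR
    have := Real.log_nonneg hR
    have := Real.sqrt_nonneg R
    nlinarith
  · intro R R' hR h
    have h1 := Real.sqrt_le_sqrt h
    have h2 := Real.log_le_log (by linarith) h
    have := Real.log_nonneg hR
    have := Real.sqrt_nonneg R
    exact mul_le_mul h1 (by linarith) (by linarith) (Real.sqrt_nonneg _)
  · intro R hR
    have hR0 : 0 < R := by linarith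
    have h1 : Real.sqrt (2 * R) ≤ 2 * Real.sqrt R := by
      rw [Real.sqrt_le_left (by positivity), mul_pow, Real.sq_sqrt hR0.le]; linarith
    have h2 : 1 + Real.log (2 * R) ≤ 2 * (1 + Real.log R) := by
      rw [Real.log_mul (by norm_num) hR0.ne']
      have := Real.log_nonneg hR
      have := Real.log_two_lt_d9
      linarith
    have := Real.log_nonneg hR
    have := Real.log_nonneg (show (1 : ℝ) ≤ 2 * R by linarith)
    calc Real.sqrt (2 * R) * (1 + Real.log (2 * R)) ≤ (2 * Real.sqrt R) * (2 * (1 + Real.log R)) :=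
          mul_le_mul h1 h2 (by linarith) (by positivity)
      _ = _ := by ring
  · obtain ⟨j0, hj0⟩ := eventually_atTop.1 hθ
    refine eventually_atTop.2 ⟨j0 + 1, fun j hj => ?_⟩
    have h1 := hj0 (j - 1) (by omega)
    rw [show j - 1 + 1 = j by omega] at h1
    have h2 : |Q θ (MM (rho j)) (rho j) - EQ (rho j)| < K * (Real.sqrt (rho j) * (1 + Real.log (rho j))) := by
      by_contra hcon
      exact h1 (not_lt.1 hcon)
    have hr1 : 1 ≤ rho j := rho_ge_one (by omega)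
    have h3 := hF θ hpos (rho j) hr1
    have h4 : 1 ≤ Real.sqrt (rho j) * (1 + Real.log (rho j)) := by
      have a1 : 1 ≤ Real.sqrt (rho j) := by rw [Real.one_le_sqrt]; exact hr1
      have a2 := Real.log_nonneg hr1
      nlinarith
    nlinarith

end Pool.Agent.U160.GC
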