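import Pool.Agent.U160.GC.Stm

/-!
Package MCD: McDiarmid's inequality (exponential moments).
-/

set_option autoImplicit false

namespace Pool.Agent.U160.GC

open MeasureTheory ProbabilityTheory Finset

namespace MCD

theorem int_bdd {α : Type*} [MeasurableSpace α] {μ : Measure α} [IsFiniteMeasure μ] {f : α → ℝ}
    (hf : Measurable f) {B : ℝ} (hB : ∀ x, |f x| ≤ B) : Integrable f μ :=
  Integrable.of_bound hf.aestronglyMeasurable B (Filter.Eventually.of_forall hB)

theorem exp_bdd (l E : ℝ) {B v : ℝ} (h : |v| ≤ B) :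
    |Real.exp (l * (v - E))| ≤ Real.exp (|l| * (B + |E|)) := by
  rw [abs_of_pos (Real.exp_pos _), Real.exp_le_exp]
  have h1 : |v - E| ≤ B + |E| := (norm_sub_le v E).trans (add_le_add h le_rfl)
  calc l * (v - E) ≤ |l * (v - E)| := le_abs_self _
    _ = |l| * |v - E| := abs_mul _ _
    _ ≤ |l| * (B + |E|) := mul_le_mul_of_nonneg_left h1 (abs_nonneg _)

/-- Hoeffding's lemma for a function whose oscillation is at most `c`. -/
theorem hoeff (ν : Measure ℝ) [IsProbabilityMeasure ν] {g : ℝ → ℝ} (hg : Measurable g) {c : ℝ}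
    (hc : ∀ u v, |g u - g v| ≤ c) (l : ℝ) :
    ∫ u, Real.exp (l * (g u - ∫ v, g v ∂ν)) ∂ν ≤ Real.exp (l ^ 2 * c ^ 2 / 2) := by
  have h1 : ∀ᵐ u ∂ν, g u ∈ Set.Icc (g 0 - c) (g 0 + c) := by
    refine Filter.Eventually.of_forall fun u => ?_
    have := abs_le.mp (hc u 0)
    exact ⟨by linarith [this.1], by linarith [this.2]⟩
  have h2 := (hasSubgaussianMGF_of_mem_Icc hg.aemeasurable h1).mgf_le l
  refine (le_of_eq rfl).trans (h2.trans (le_of_eq ?_))
  congr 2
  rw [NNReal.coe_pow, NNReal.coe_div, coe_nnnorm, Real.norm_eq_abs]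
  rw [show g 0 + c - (g 0 - c) = 2 * c by ring, div_pow, sq_abs]
  rw [show ((2 : NNReal) : ℝ) = 2 from rfl]
  ring

theorem fin_mcd (ν : Measure ℝ) [IsProbabilityMeasure ν] : ∀ (n : ℕ) (f : (Fin n → ℝ) → ℝ)
    (c : Fin n → ℝ) (B : ℝ), Measurable f → (∀ x, |f x| ≤ B) →
    (∀ (j : Fin n) (x y : Fin n → ℝ), (∀ i, i ≠ j → x i = y i) → |f x - f y| ≤ c j) → ∀ l : ℝ,
    ∫ x, Real.exp (l * (f x - ∫ y, f y ∂(Measure.pi fun _ : Fin n => ν)))
      ∂(Measure.pi fun _ : Fin n => ν) ≤ Real.exp (l ^ 2 * (∑ j, c j ^ 2) / 2) := by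
  intro n
  induction n with
  | zero =>
    intro f c B hf hB hc l
    have h1 : ∀ x y, f x = f y := fun x y => congrArg f (Subsingleton.elim x y)
    have h2 : (∫ y, f y ∂(Measure.pi fun _ : Fin 0 => ν)) = f 0 := by
      rw [integral_congr_ae (Filter.Eventually.of_forall fun x => h1 x 0)]
      simp
    rw [h2]
    have h3 : ∀ x, Real.exp (l * (f x - f 0)) = 1 := fun x => by
      rw [h1 x 0, sub_self, mul_zero, Real.exp_zero]
    simp only [h3]
    simp
  | succ n ih =>
    intro f c B hf hB hc l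
    set μ := Measure.pi fun _ : Fin n => ν with hμ
    set e := MeasurableEquiv.piFinSuccAbove (fun _ : Fin (n + 1) => ℝ) 0 with he
    have hmp : MeasurePreserving e (Measure.pi fun _ : Fin (n + 1) => ν) (ν.prod μ) :=
      measurePreserving_piFinSuccAbove (fun _ : Fin (n + 1) => ν) 0
    have he0 : ∀ z : ℝ × (Fin n → ℝ), (e.symm z) 0 = z.1 := fun z =>
      congrArg Prod.fst (e.apply_symm_apply z)
    have hes : ∀ (z : ℝ × (Fin n → ℝ)) (k : Fin n), (e.symm z) k.succ = z.2 k := fun z k => by
      have := congrFun (congrArg Prod.snd (e.apply_symm_apply z)) k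
      rw [← this]
      change _ = (e.symm z) ((0 : Fin (n + 1)).succAbove k)
      rw [Fin.zero_succAbove]
    let F : ℝ × (Fin n → ℝ) → ℝ := fun z => f (e.symm z)
    have hF : Measurable F := hf.comp e.symm.measurable
    have hFB : ∀ z, |F z| ≤ B := fun z => hB _
    have hFe : ∀ x, F (e x) = f x := fun x => congrArg f (e.symm_apply_apply x)
    let g : ℝ → ℝ := fun u => ∫ y, F (u, y) ∂μ
    have hg : Measurable g := (hF.stronglyMeasurable.integral_prod_right').measurable
    have hFu : ∀ u, Measurable fun y => F (u, y) := fun u => hF.comp measurable_prodMk_left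
    have hE : ∫ y, f y ∂(Measure.pi fun _ : Fin (n + 1) => ν) = ∫ u, g u ∂ν := by
      have h1 := hmp.integral_comp' F
      simp only [hFe] at h1
      rw [h1, integral_prod _ (int_bdd hF hFB)]
    rw [hE]
    set E := ∫ u, g u ∂ν with hEdef
    have hG : Measurable fun z => Real.exp (l * (F z - E)) := by fun_prop
    have hGi : Integrable (fun z => Real.exp (l * (F z - E))) (ν.prod μ) :=
      int_bdd hG fun z => exp_bdd l E (hFB z)
    have h1 : ∫ x, Real.exp (l * (f x - E)) ∂(Measure.pi fun _ : Fin (n + 1) => ν) =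
        ∫ u, ∫ y, Real.exp (l * (F (u, y) - E)) ∂μ ∂ν := by
      have h1 := hmp.integral_comp' (fun z => Real.exp (l * (F z - E)))
      simp only [hFe] at h1
      rw [h1, integral_prod _ hGi]
    rw [h1]
    set K := Real.exp (l ^ 2 * (∑ j : Fin n, c j.succ ^ 2) / 2) with hK
    have hgB : ∀ u, |g u| ≤ B := fun u => by
      have := norm_integral_le_of_norm_le_const (μ := μ) (f := fun y => F (u, y)) (C := B)
        (Filter.Eventually.of_forall fun y => hFB (u, y))
      rwa [probReal_univ, mul_one] at this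
    have h2 : ∀ u, ∫ y, Real.exp (l * (F (u, y) - E)) ∂μ ≤ Real.exp (l * (g u - E)) * K := by
      intro u
      have h3 : ∀ y, Real.exp (l * (F (u, y) - E)) =
          Real.exp (l * (g u - E)) * Real.exp (l * (F (u, y) - g u)) := fun y => by
        rw [← Real.exp_add]
        congr 1
        ring
      simp only [h3]
      rw [integral_const_mul]
      refine mul_le_mul_of_nonneg_left ?_ (Real.exp_pos _).le
      refine ih (fun y => F (u, y)) (fun j => c j.succ) B (hFu u) (fun y => hFB _) ?_ l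
      intro j x y hxy
      refine hc j.succ _ _ fun i hi => ?_
      rcases Fin.eq_zero_or_eq_succ i with rfl | ⟨k, rfl⟩
      · rw [he0, he0]
      · rw [hes, hes]
        exact hxy k fun h => hi (by rw [h])
    have hgc : ∀ u v, |g u - g v| ≤ c 0 := by
      intro u v
      have h3 : g u - g v = ∫ y, (F (u, y) - F (v, y)) ∂μ := by
        rw [integral_sub (int_bdd (hFu u) fun y => hFB _) (int_bdd (hFu v) fun y => hFB _)]
      rw [h3]
      have h4 : ∀ y, ‖F (u, y) - F (v, y)‖ ≤ c 0 := by
        intro y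
        refine hc 0 _ _ fun i hi => ?_
        rcases Fin.eq_zero_or_eq_succ i with rfl | ⟨k, rfl⟩
        · exact absurd rfl hi
        · rw [hes, hes]
      have := norm_integral_le_of_norm_le_const (μ := μ) (Filter.Eventually.of_forall h4)
      rwa [probReal_univ, mul_one] at this
    have h4 : Measurable fun u => Real.exp (l * (g u - E)) := by fun_prop
    calc ∫ u, ∫ y, Real.exp (l * (F (u, y) - E)) ∂μ ∂ν
        ≤ ∫ u, Real.exp (l * (g u - E)) * K ∂ν := by
          refine integral_mono hGi.integral_prod_left ?_ h2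
          exact (int_bdd h4 fun u => exp_bdd l E (hgB u)).mul_const K
      _ = (∫ u, Real.exp (l * (g u - E)) ∂ν) * K := integral_mul_const _ _
      _ ≤ Real.exp (l ^ 2 * c 0 ^ 2 / 2) * K :=
          mul_le_mul_of_nonneg_right (hoeff ν hg hgc l) (Real.exp_pos _).le
      _ = _ := by
          rw [hK, ← Real.exp_add, Fin.sum_univ_succ]
          congr 1
          ring

/-- extension by zero -/
noncomputable def ext0 (M : ℕ) (y : Fin M → ℝ) (n : ℕ) : ℝ :=
  if h : n - 1 < M ∧ 1 ≤ n then y ⟨n - 1, h.1⟩ else 0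

theorem measurable_ext0 (M : ℕ) : Measurable (ext0 M) := by
  rw [measurable_pi_iff]
  intro n
  unfold ext0
  by_cases h : n - 1 < M ∧ 1 ≤ n
  · simp only [h, and_self, dite_true]
    exact measurable_pi_apply _
  · simp only [h, dite_false]
    exact measurable_const

theorem osc {f : (ℕ → ℝ) → ℝ} {c : ℕ → ℝ}
    (hc : ∀ (j : ℕ) (x y : ℕ → ℝ), (∀ n, n ≠ j → x n = y n) → |f x - f y| ≤ c j) :
    ∀ (s : Finset ℕ) (x y : ℕ → ℝ), (∀ n, n ∉ s → x n = y n) → |f x - f y| ≤ ∑ j ∈ s, c j := by
  classical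
  intro s
  induction s using Finset.induction_on with
  | empty =>
    intro x y h
    have : x = y := funext fun n => h n (Finset.notMem_empty n)
    rw [this, sub_self, abs_zero, Finset.sum_empty]
  | insert a s ha ih =>
    intro x y h
    rw [Finset.sum_insert ha]
    have h1 : |f x - f (Function.update x a (y a))| ≤ c a :=
      hc a _ _ fun n hn => by rw [Function.update_of_ne hn]
    have h2 : |f (Function.update x a (y a)) - f y| ≤ ∑ j ∈ s, c j := by
      refine ih _ _ fun n hn => ?_
      by_cases hna : n = a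
      · subst hna
        rw [Function.update_self]
      · rw [Function.update_of_ne hna]
        exact h n fun h3 => (Finset.mem_insert.mp h3).elim hna hn
    exact (abs_sub_le _ _ _).trans (add_le_add h1 h2)

theorem map_T (ν : Measure ℝ) [IsProbabilityMeasure ν] (M : ℕ) :
    (prodLaw ν).map (fun θ (i : Fin M) => θ (i + 1)) = Measure.pi fun _ : Fin M => ν := by
  have h1 : iIndepFun (fun (i : ℕ) (ω : ℕ → ℝ) => ω i) (prodLaw ν) :=
    iIndepFun_infinitePi (P := fun _ : ℕ => ν) (X := fun _ x => x) fun _ => measurable_id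
  have h2 : Function.Injective fun i : Fin M => (i : ℕ) + 1 := fun i j hij => by
    apply Fin.ext
    simpa using hij
  have h3 := h1.precomp h2
  have : IsProbabilityMeasure (prodLaw ν) := by unfold prodLaw; infer_instance
  have h4 := (iIndepFun_iff_map_fun_eq_pi_map
    (fun i : Fin M => (measurable_pi_apply ((i : ℕ) + 1)).aemeasurable)).mp h3
  rw [h4]
  congr 1
  funext i
  exact Measure.infinitePi_map_eval (fun _ : ℕ => ν) _

end MCD

open MCD in
theorem t_MCD : S_MCD := by
  intro ν _ M f c hf hdep hc0 hc l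
  have : IsProbabilityMeasure (prodLaw ν) := by unfold prodLaw; infer_instance
  set B : ℝ := |f 0| + ∑ j ∈ Icc 1 M, c j with hBdef
  have hB : ∀ x, |f x| ≤ B := by
    intro x
    have h1 : |f x - f fun n => if n ∈ Icc 1 M then 0 else x n| ≤ ∑ j ∈ Icc 1 M, c j :=
      osc hc _ _ _ fun n hn => by rw [if_neg hn]
    have h2 : (f fun n => if n ∈ Icc 1 M then 0 else x n) = f 0 :=
      hdep _ _ fun n hn => by rw [if_pos hn]; rfl
    rw [h2] at h1
    have h3 : |f x| ≤ |f x - f 0| + |f 0| := by
      have := abs_add_le (f x - f 0) (f 0)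
      rwa [sub_add_cancel] at this
    linarith
  have hm : Measurable fun θ => Real.exp (l * (f θ - ∫ θ', f θ' ∂(prodLaw ν))) := by fun_prop
  refine ⟨int_bdd hm fun θ => exp_bdd l _ (hB θ), ?_⟩
  let T : (ℕ → ℝ) → (Fin M → ℝ) := fun θ i => θ (i + 1)
  have hT : Measurable T := measurable_pi_lambda _ fun i => measurable_pi_apply _
  have hmap : (prodLaw ν).map T = Measure.pi fun _ : Fin M => ν := map_T ν M
  let fM : (Fin M → ℝ) → ℝ := fun y => f (ext0 M y)
  have hfMm : Measurable fM := hf.comp (measurable_ext0 M)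
  have hfM : ∀ θ, fM (T θ) = f θ := by
    intro θ
    refine hdep _ _ fun n hn => ?_
    rw [Finset.mem_Icc] at hn
    have h1 : n - 1 < M ∧ 1 ≤ n := by omega
    change ext0 M (T θ) n = θ n
    rw [ext0, dif_pos h1]
    change θ (n - 1 + 1) = θ n
    rw [Nat.sub_add_cancel h1.2]
  have h1 : ∫ θ, f θ ∂(prodLaw ν) = ∫ y, fM y ∂(Measure.pi fun _ : Fin M => ν) := by
    rw [← hmap, integral_map hT.aemeasurable hfMm.aestronglyMeasurable]
    simp only [hfM]
  rw [h1]
  set E := ∫ y, fM y ∂(Measure.pi fun _ : Fin M => ν) with hE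
  have h2m : Measurable fun y => Real.exp (l * (fM y - E)) := by fun_prop
  have h2 : ∫ θ, Real.exp (l * (f θ - E)) ∂(prodLaw ν) =
      ∫ y, Real.exp (l * (fM y - E)) ∂(Measure.pi fun _ : Fin M => ν) := by
    rw [← hmap, integral_map hT.aemeasurable h2m.aestronglyMeasurable]
    simp only [hfM]
  rw [h2]
  have h3 : ∀ (j : Fin M) (x y : Fin M → ℝ), (∀ i, i ≠ j → x i = y i) →
      |fM x - fM y| ≤ c (j + 1) := by
    intro j x y hxy
    refine hc _ _ _ fun n hn => ?_
    unfold ext0
    by_cases h : n - 1 < M ∧ 1 ≤ n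
    · rw [dif_pos h, dif_pos h]
      refine hxy _ fun h4 => hn ?_
      have h5 := congrArg Fin.val h4
      simp only at h5
      omega
    · rw [dif_neg h, dif_neg h]
  refine (fin_mcd ν M fM (fun j => c (j + 1)) B hfMm (fun x => hB _) h3 l).trans (le_of_eq ?_)
  congr 3
  rw [← Finset.sum_range (fun j => c (j + 1) ^ 2), Finset.range_eq_Ico,
    Finset.sum_Ico_add' (fun j => c j ^ 2)]
  refine Finset.sum_congr ?_ fun _ _ => rfl
  ext n
  rw [Finset.mem_Ico, Finset.mem_Icc]
  omega

end Pool.Agent.U160.GC
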