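import Pool.Agent.U160.GC.Stm
import Pool.Agent.U160.GC.PkgMCD
import Pool.Agent.U160.VP.Poly

set_option autoImplicit false

namespace Pool.Agent.U160.GC

open MeasureTheory ProbabilityTheory Finset Filter Topology
open Pool.Agent.U160.VP (KInd kind_of_iInd transfer)

/-- moments of a polynomial of local functions only depend on the joint laws of few coordinates -/
theorem transfer_gen {r : ℕ} {Ω Ω' : Type} [MeasurableSpace Ω] [MeasurableSpace Ω'] (P : Measure Ω) (P' : Measure Ω')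
    [IsProbabilityMeasure P] [IsProbabilityMeasure P']
    (X : ℕ → Ω → ℝ) (X' : ℕ → Ω' → ℝ) (ν : Measure ℝ) (hX : ∀ n, Measurable (X n)) (hX' : ∀ n, Measurable (X' n))
    (h : KInd r P X ν) (h' : KInd r P' X' ν) {ι : Type} (F : Finset ι) (supp : ι → Finset ℕ)
    (g : ι → (ℕ → ℝ) → ℝ) (hg : ∀ i, Measurable (g i)) (B : ℝ) (hB : ∀ i x, |g i x| ≤ B)
    (hdep : ∀ i (x y : ℕ → ℝ), (∀ m ∈ supp i, x m = y m) → g i x = g i y)
    (hpos : ∀ i ∈ F, ∀ m ∈ supp i, 1 ≤ m) {d q : ℕ} (hcard : ∀ i ∈ F, (supp i).card ≤ d) (hr : q * d ≤ r) (a : ℝ) :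
    ∫ ω, (∑ i ∈ F, g i (fun n => X n ω) - a) ^ q ∂P = ∫ ω, (∑ i ∈ F, g i (fun n => X' n ω) - a) ^ q ∂P' := by
  classical
  rcases F.eq_empty_or_nonempty with rfl | hF
  · simp
  have hc : (F.card : ℝ) ≠ 0 := by exact_mod_cast (card_pos.2 hF).ne'
  set b : ℝ := a / F.card with hb
  have hN : ∀ θ : ℕ → ℝ, (∑ i ∈ F, g i θ - a) ^ q =
      ∑ σ ∈ Fintype.piFinset (fun _ : Fin q => F), ∏ l, (g (σ l) θ - b) := by
    intro θ
    have h1 : ∑ i ∈ F, g i θ - a = ∑ i ∈ F, (g i θ - b) := by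
      rw [sum_sub_distrib]
      congr 1
      rw [sum_const, nsmul_eq_mul, hb]
      field_simp
    rw [h1, Finset.sum_pow']
  simp_rw [hN]
  have hmeas : ∀ σ : Fin q → ι, Measurable (fun θ : ℕ → ℝ => ∏ l, (g (σ l) θ - b)) := fun σ =>
    Finset.measurable_prod _ fun l _ => (hg (σ l)).sub_const b
  have hint : ∀ (Ω : Type) [MeasurableSpace Ω] (P : Measure Ω) [IsProbabilityMeasure P] (X : ℕ → Ω → ℝ),
      (∀ n, Measurable (X n)) → ∀ σ : Fin q → ι,
      Integrable (fun ω => ∏ l, (g (σ l) (fun n => X n ω) - b)) P := by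
    intro Ω _ P _ X hX σ
    apply Integrable.of_bound ((hmeas σ).comp (measurable_pi_iff.2 hX)).aestronglyMeasurable ((B + |b|) ^ q)
    refine Filter.Eventually.of_forall fun ω => ?_
    simp only [Function.comp_apply]
    rw [norm_prod]
    calc ∏ l, ‖g (σ l) (fun n => X n ω) - b‖
        ≤ ∏ _l : Fin q, (B + |b|) := by
          refine prod_le_prod (fun _ _ => norm_nonneg _) fun l _ => ?_
          calc _ ≤ ‖g (σ l) (fun n => X n ω)‖ + ‖b‖ := norm_sub_le _ _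
            _ ≤ _ := by
              rw [Real.norm_eq_abs, Real.norm_eq_abs]
              linarith [hB (σ l) (fun n => X n ω)]
      _ = _ := by simp
  rw [integral_finsetSum _ (fun σ _ => hint Ω P X hX σ), integral_finsetSum _ (fun σ _ => hint Ω' P' X' hX' σ)]
  refine sum_congr rfl fun σ hσ => ?_
  have hσ' : ∀ l, σ l ∈ F := Fintype.mem_piFinset.1 hσ
  refine transfer P P' X X' ν hX hX' h h' (univ.biUnion fun l : Fin q => supp (σ l)) ?_ ?_ _ (hmeas σ) ?_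
  · intro n hn
    obtain ⟨l, -, hl⟩ := mem_biUnion.1 hn
    exact hpos _ (hσ' l) n hl
  · calc _ ≤ ∑ l : Fin q, (supp (σ l)).card := card_biUnion_le
      _ ≤ ∑ _l : Fin q, d := sum_le_sum fun l _ => hcard _ (hσ' l)
      _ = q * d := by simp
      _ ≤ r := hr
  · intro x y hxy
    refine prod_congr rfl fun l _ => ?_
    rw [hdep (σ l) x y fun m hm => hxy m (mem_biUnion.2 ⟨l, mem_univ l, hm⟩)]

/-- even moments from McDiarmid's inequality -/
theorem mcd_moment (ν : Measure ℝ) [IsProbabilityMeasure ν] (M : ℕ) (f : (ℕ → ℝ) → ℝ) (c : ℕ → ℝ)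
    (hf : Measurable f) (hdep : ∀ x y : ℕ → ℝ, (∀ n ∈ Icc 1 M, x n = y n) → f x = f y)
    (hc : ∀ j, 0 ≤ c j) (hb : ∀ (j : ℕ) (x y : ℕ → ℝ), (∀ n, n ≠ j → x n = y n) → |f x - f y| ≤ c j)
    (V : ℝ) (hV : 0 < V) (hcV : ∑ j ∈ Icc 1 M, c j ^ 2 ≤ V) (q : ℕ) :
    ∫ θ, (f θ - ∫ θ', f θ' ∂(prodLaw ν)) ^ (2 * q) ∂(prodLaw ν) ≤ 4 * (2 * q).factorial * V ^ q := by
  have hP : IsProbabilityMeasure (prodLaw ν) := by unfold prodLaw; infer_instance
  set E := ∫ θ', f θ' ∂(prodLaw ν) with hE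
  have hs0 : 0 < Real.sqrt V := Real.sqrt_pos.2 hV
  have hss : Real.sqrt V ^ 2 = V := Real.sq_sqrt hV.le
  set l : ℝ := 1 / Real.sqrt V with hl
  have hl0 : 0 < l := by positivity
  have hl2 : l ^ 2 * V = 1 := by rw [hl, div_pow, hss]; field_simp
  obtain ⟨i1, e1⟩ := t_MCD ν M f c hf hdep hc hb l
  obtain ⟨i2, e2⟩ := t_MCD ν M f c hf hdep hc hb (-l)
  have hexp : Real.exp (l ^ 2 * (∑ j ∈ Icc 1 M, c j ^ 2) / 2) ≤ 2 := by
    have h1 : l ^ 2 * (∑ j ∈ Icc 1 M, c j ^ 2) / 2 ≤ 1 / 2 := by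
      have : l ^ 2 * (∑ j ∈ Icc 1 M, c j ^ 2) ≤ l ^ 2 * V := mul_le_mul_of_nonneg_left hcV (by positivity)
      linarith
    calc _ ≤ Real.exp (1 / 2) := Real.exp_le_exp.2 h1
      _ ≤ 2 := by
        have h2 : Real.exp (1 / 2) ^ 2 = Real.exp 1 := by rw [← Real.exp_nat_mul]; norm_num
        have h3 := Real.exp_one_lt_d9
        nlinarith [Real.exp_pos (1 / 2 : ℝ)]
  rw [← hE] at i1 e1 i2 e2
  have e2' : ∫ θ, Real.exp (-l * (f θ - E)) ∂(prodLaw ν) ≤ 2 := by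
    refine e2.trans ?_
    rw [neg_sq]; exact hexp
  have e1' := e1.trans hexp
  have hpt : ∀ θ, (f θ - E) ^ (2 * q) ≤ (2 * q).factorial * V ^ q *
      (Real.exp (l * (f θ - E)) + Real.exp (-l * (f θ - E))) := by
    intro θ
    have h1 := Real.pow_div_factorial_le_exp |l * (f θ - E)| (abs_nonneg _) (2 * q)
    have h2 : Real.exp |l * (f θ - E)| ≤ Real.exp (l * (f θ - E)) + Real.exp (-l * (f θ - E)) := by
      rcases abs_cases (l * (f θ - E)) with ⟨h, -⟩ | ⟨h, -⟩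
      · rw [h]; linarith [Real.exp_pos (-l * (f θ - E))]
      · rw [h, ← neg_mul]; linarith [Real.exp_pos (l * (f θ - E))]
    have h3 : |l * (f θ - E)| ^ (2 * q) = l ^ (2 * q) * (f θ - E) ^ (2 * q) := by
      rw [(even_two_mul q).pow_abs, mul_pow]
    rw [h3] at h1
    have hfac : (0 : ℝ) < (2 * q).factorial := by exact_mod_cast Nat.factorial_pos _
    rw [div_le_iff₀ hfac] at h1
    have h4 : l ^ (2 * q) * V ^ q = 1 := by rw [pow_mul, ← mul_pow, hl2, one_pow]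
    have h5 : (f θ - E) ^ (2 * q) = V ^ q * (l ^ (2 * q) * (f θ - E) ^ (2 * q)) := by
      rw [← mul_assoc, mul_comm (V ^ q), h4, one_mul]
    rw [h5]
    calc V ^ q * (l ^ (2 * q) * (f θ - E) ^ (2 * q))
        ≤ V ^ q * (Real.exp |l * (f θ - E)| * (2 * q).factorial) := by gcongr
      _ ≤ V ^ q * ((Real.exp (l * (f θ - E)) + Real.exp (-l * (f θ - E))) * (2 * q).factorial) := by gcongr
      _ = _ := by ring
  have hI : Integrable (fun θ => (2 * q).factorial * V ^ q *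
      (Real.exp (l * (f θ - E)) + Real.exp (-l * (f θ - E)))) (prodLaw ν) := (i1.add i2).const_mul _
  calc ∫ θ, (f θ - E) ^ (2 * q) ∂(prodLaw ν) ≤ ∫ θ, ((2 * q).factorial * V ^ q *
      (Real.exp (l * (f θ - E)) + Real.exp (-l * (f θ - E)))) ∂(prodLaw ν) := by
        apply integral_mono_of_nonneg (Filter.Eventually.of_forall fun θ => (even_two_mul q).pow_nonneg _) hI
        exact Filter.Eventually.of_forall hpt
    _ = (2 * q).factorial * V ^ q * (∫ θ, Real.exp (l * (f θ - E)) ∂(prodLaw ν) +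
        ∫ θ, Real.exp (-l * (f θ - E)) ∂(prodLaw ν)) := by
        rw [integral_const_mul, integral_add i1 i2]
    _ ≤ (2 * q).factorial * V ^ q * (2 + 2) := by gcongr
    _ = _ := by ring

/-- the tail from McDiarmid's inequality -/
theorem mcd_tail (ν : Measure ℝ) [IsProbabilityMeasure ν] (M : ℕ) (f : (ℕ → ℝ) → ℝ) (c : ℕ → ℝ)
    (hf : Measurable f) (hdep : ∀ x y : ℕ → ℝ, (∀ n ∈ Icc 1 M, x n = y n) → f x = f y)
    (hc : ∀ j, 0 ≤ c j) (hb : ∀ (j : ℕ) (x y : ℕ → ℝ), (∀ n, n ≠ j → x n = y n) → |f x - f y| ≤ c j)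
    (V : ℝ) (hV : 0 < V) (hcV : ∑ j ∈ Icc 1 M, c j ^ 2 ≤ V) (lam : ℝ) (hlam : 0 < lam) :
    (prodLaw ν).real {θ | lam ≤ |f θ - ∫ θ', f θ' ∂(prodLaw ν)|} ≤ 2 * Real.exp (-(lam ^ 2 / (2 * V))) := by
  have hP : IsProbabilityMeasure (prodLaw ν) := by unfold prodLaw; infer_instance
  set E := ∫ θ', f θ' ∂(prodLaw ν) with hE
  set l : ℝ := lam / V with hl
  have hl0 : 0 < l := by positivity
  obtain ⟨i1, e1⟩ := t_MCD ν M f c hf hdep hc hb l
  obtain ⟨i2, e2⟩ := t_MCD ν M f c hf hdep hc hb (-l)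
  rw [← hE] at i1 e1 i2 e2
  have hexp : Real.exp (l ^ 2 * (∑ j ∈ Icc 1 M, c j ^ 2) / 2) ≤ Real.exp (lam ^ 2 / (2 * V)) := by
    apply Real.exp_le_exp.2
    have : l ^ 2 * (∑ j ∈ Icc 1 M, c j ^ 2) ≤ l ^ 2 * V := mul_le_mul_of_nonneg_left hcV (by positivity)
    have h2 : l ^ 2 * V / 2 = lam ^ 2 / (2 * V) := by rw [hl]; field_simp
    linarith
  have hone : ∀ (s : ℝ), (s = l ∨ s = -l) → Integrable (fun θ => Real.exp (s * (f θ - E))) (prodLaw ν) →
      ∫ θ, Real.exp (s * (f θ - E)) ∂(prodLaw ν) ≤ Real.exp (lam ^ 2 / (2 * V)) →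
      (prodLaw ν).real {θ | l * lam ≤ s * (f θ - E)} ≤ Real.exp (-(lam ^ 2 / (2 * V))) := by
    intro s _ hi he
    have hmark := mul_meas_ge_le_integral_of_nonneg (μ := prodLaw ν) (f := fun θ => Real.exp (s * (f θ - E)))
      (Filter.Eventually.of_forall fun θ => (Real.exp_pos _).le) hi (Real.exp (l * lam))
    have h1 : {θ | l * lam ≤ s * (f θ - E)} = {θ | Real.exp (l * lam) ≤ Real.exp (s * (f θ - E))} := by
      ext θ; simp only [Set.mem_ofPred_eq, Real.exp_le_exp]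
    rw [h1]
    have h2 := hmark.trans he
    have h3 : Real.exp (lam ^ 2 / (2 * V)) = Real.exp (l * lam) * Real.exp (-(lam ^ 2 / (2 * V))) := by
      rw [← Real.exp_add]; congr 1; rw [hl]; field_simp; ring
    rw [h3] at h2
    exact le_of_mul_le_mul_left h2 (Real.exp_pos _)
  have a1 := hone l (Or.inl rfl) i1 (e1.trans hexp)
  have a2 := hone (-l) (Or.inr rfl) i2 (by refine e2.trans ?_; rw [neg_sq]; exact hexp)
  have hsub : {θ | lam ≤ |f θ - E|} ⊆ {θ | l * lam ≤ l * (f θ - E)} ∪ {θ | l * lam ≤ -l * (f θ - E)} := by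
    intro θ hθ
    simp only [Set.mem_ofPred_eq] at hθ
    rcases abs_cases (f θ - E) with ⟨h, -⟩ | ⟨h, -⟩
    · left
      rw [h] at hθ
      exact mul_le_mul_of_nonneg_left hθ hl0.le
    · right
      rw [h] at hθ
      have := mul_le_mul_of_nonneg_left hθ hl0.le
      simp only [Set.mem_ofPred_eq]
      linarith
  calc _ ≤ (prodLaw ν).real ({θ | l * lam ≤ l * (f θ - E)} ∪ {θ | l * lam ≤ -l * (f θ - E)}) :=
        measureReal_mono hsub (measure_ne_top _ _)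
    _ ≤ _ := measureReal_union_le _ _
    _ ≤ _ := by linarith

end Pool.Agent.U160.GC
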