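import Mathlib

set_option autoImplicit false

/-!
# Project GC: the Gauss circle problem for perturbed integers

`x_m = m + sgn(m) (θ_|m| - 1/2)` (`m ∈ ℤ`, `x_0 = 0`), `θ_n = {P(n)}` for almost every real polynomial `P` of large
degree, or independent uniform in `[0,1]`.  THEOREM: `#{(m,n) ∈ ℤ² : x_m² + x_n² ≤ R²} = π R² + O(R^(1/2+ε))`.

Every `S_X` is a `Prop`; package `X` proves `theorem t_X : ... → S_X`.
-/

namespace Pool.Agent.U160.GC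

open MeasureTheory ProbabilityTheory Finset

noncomputable section

/-- the uniform law on `[0,1]` -/
def unif : Measure ℝ := (volume : Measure ℝ).restrict (Set.Icc 0 1)

instance unif_prob : IsProbabilityMeasure unif := ⟨by simp [unif]⟩

/-- the product law of a sequence -/
def prodLaw (ν : Measure ℝ) [IsProbabilityMeasure ν] : Measure (ℕ → ℝ) := Measure.infinitePi fun _ : ℕ => ν

/-- truncation to `[0,1]` -/
def clip (u : ℝ) : ℝ := max 0 (min 1 u)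

/-- the perturbed number `n + θ - 1/2` (with `θ` truncated to `[0,1]`) -/
def xx (θ : ℕ → ℝ) (n : ℕ) : ℝ := (n : ℝ) + clip (θ n) - 1 / 2

/-- the number of the `(m,n)` in `[1,M]²` with `x_m² + x_n² ≤ R²` -/
def Q (θ : ℕ → ℝ) (M : ℕ) (R : ℝ) : ℝ :=
  ∑ m ∈ Icc 1 M, ∑ n ∈ Icc 1 M, if xx θ m ^ 2 + xx θ n ^ 2 ≤ R ^ 2 then 1 else 0

/-- the perturbed integers -/
def pt (θ : ℕ → ℝ) (m : ℤ) : ℝ := (m : ℝ) + (m.sign : ℝ) * (θ m.natAbs - 1 / 2)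

/-- the number of points of the perturbed lattice in the disc of radius `R` -/
def F (θ : ℕ → ℝ) (R : ℝ) : ℝ := ({p : ℤ × ℤ | pt θ p.1 ^ 2 + pt θ p.2 ^ 2 ≤ R ^ 2}.ncard : ℝ)

/-- package RED: from the four quadrants to one -/
def S_RED : Prop := ∀ θ : ℕ → ℝ, (∀ n, 1 ≤ n → 0 ≤ θ n ∧ θ n ≤ 1) → ∀ (R : ℝ) (M : ℕ), 1 ≤ R → R + 1 ≤ M →
  |F θ R - 4 * Q θ M R - 4 * R| ≤ 10

/-- package MEAN: the mean number of points in a quadrant -/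
def S_MEAN : Prop := ∃ C : ℝ, 0 < C ∧ ∀ (R : ℝ) (M : ℕ), 1 ≤ R → R + 1 ≤ M →
  |∫ θ, Q θ M R ∂(prodLaw unif) - (Real.pi * R ^ 2 / 4 - R)| ≤ C

/-- package INF: influences -/
def S_INF : Prop := ∃ C : ℝ, 0 < C ∧ ∀ (R : ℝ) (M : ℕ), 1 ≤ R → ∃ c : ℕ → ℝ,
  (∀ j, 0 ≤ c j) ∧ ∑ j ∈ Icc 1 M, c j ^ 2 ≤ C * R * (1 + Real.log R) ∧
  ∀ (j : ℕ) (x y : ℕ → ℝ), (∀ n, n ≠ j → x n = y n) → |Q x M R - Q y M R| ≤ c j

/-- package MCD: McDiarmid's inequality (exponential moments) -/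
def S_MCD : Prop := ∀ (ν : Measure ℝ) [IsProbabilityMeasure ν] (M : ℕ) (f : (ℕ → ℝ) → ℝ) (c : ℕ → ℝ),
  Measurable f → (∀ x y : ℕ → ℝ, (∀ n ∈ Icc 1 M, x n = y n) → f x = f y) →
  (∀ j, 0 ≤ c j) → (∀ (j : ℕ) (x y : ℕ → ℝ), (∀ n, n ≠ j → x n = y n) → |f x - f y| ≤ c j) →
  ∀ l : ℝ, Integrable (fun θ => Real.exp (l * (f θ - ∫ θ', f θ' ∂(prodLaw ν)))) (prodLaw ν) ∧
    ∫ θ, Real.exp (l * (f θ - ∫ θ', f θ' ∂(prodLaw ν))) ∂(prodLaw ν) ≤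
      Real.exp (l ^ 2 * (∑ j ∈ Icc 1 M, c j ^ 2) / 2)

end

end Pool.Agent.U160.GC
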